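import Mathlib

open Filter MeasureTheory Set ProbabilityTheory
open scoped ENNReal NNReal Topology BoundedContinuousFunction

namespace Pool.Agent.Results.MP_5090e2_pr.ProfileLimits

noncomputable section

set_option linter.unusedSectionVars false

/-! ### Definitions used in the statement -/

/-- Total variation distance `sup_A |μ(A) - ν(A)|`. -/
def tv {T : Type} [MeasurableSpace T] (μ ν : Measure T) : ℝ :=
  ⨆ A : {A : Set T // MeasurableSet A}, |μ.real A - ν.real A|

/-- The space of nonincreasing functions from `[0,∞)` to `[0,1]`; functions which agree at their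
continuity points are identified by taking the right-continuous representative. -/
structure Profile where
  toFun : ℝ≥0 → ℝ
  anti : Antitone toFun
  nonneg : ∀ t, 0 ≤ toFun t
  le_one : ∀ t, toFun t ≤ 1
  right : ∀ t, ContinuousWithinAt toFun (Ici t) t

/-- The subbasic sets of the topology of the space of profiles. By `tendsto_iff` below it is the
topology of pointwise convergence at the continuity points of the limit. -/
def subb : Set (Set Profile) :=
  {s | ∃ q c : ℚ, 0 ≤ q ∧ (s = {f | ∃ u : ℝ≥0, (u : ℝ) < (q : ℝ) ∧ f.toFun u < (c : ℝ)} ∨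
    s = {f | ∃ u : ℝ≥0, (q : ℝ) < u ∧ (c : ℝ) < f.toFun u})}

instance : TopologicalSpace Profile := TopologicalSpace.generateFrom subb

instance : MeasurableSpace Profile := borel Profile

instance : BorelSpace Profile := ⟨rfl⟩

/-- truncation to `[0,1]` -/
def clamp (v : ℝ) : ℝ := max 0 (min v 1)

theorem clamp_nonneg (v : ℝ) : 0 ≤ clamp v := le_max_left _ _

theorem clamp_le_one (v : ℝ) : clamp v ≤ 1 := max_le zero_le_one (min_le_right _ _)

theorem clamp_eq {v : ℝ} (h0 : 0 ≤ v) (h1 : v ≤ 1) : clamp v = v := by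
  rw [clamp, min_eq_left h1, max_eq_right h0]

theorem bdd_clamp (f : ℝ≥0 → ℝ) (t : ℝ≥0) :
    BddAbove (range fun s : {s : ℝ≥0 // t < s} => clamp (f s)) :=
  ⟨1, by rintro _ ⟨s, rfl⟩; exact clamp_le_one _⟩

instance (t : ℝ≥0) : Nonempty {s : ℝ≥0 // t < s} := ⟨⟨t + 1, by simp⟩⟩

/-- The right-continuous version `t ↦ sup_{s > t} f s` of a function with values in `[0,1]`. -/
def reg (f : ℝ≥0 → ℝ) : Profile where
  toFun t := ⨆ s : {s : ℝ≥0 // t < s}, clamp (f s)
  anti := by
    intro a b hab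
    exact ciSup_le fun s => le_ciSup (bdd_clamp f a) ⟨s.1, lt_of_le_of_lt hab s.2⟩
  nonneg t := (clamp_nonneg _).trans (le_ciSup (bdd_clamp f t) ⟨t + 1, by simp⟩)
  le_one t := ciSup_le fun s => clamp_le_one _
  right t := by
    refine tendsto_order.mpr ⟨fun c hc => ?_, fun c hc => ?_⟩
    · obtain ⟨s, hs⟩ := exists_lt_of_lt_ciSup hc
      have h1 : ∀ᶠ u in 𝓝[≥] t, u < s.1 := nhdsWithin_le_nhds (gt_mem_nhds s.2)
      refine h1.mono fun u hu => ?_
      exact hs.trans_le (le_ciSup (bdd_clamp f u) ⟨s.1, hu⟩)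
    · have h1 : ∀ᶠ u in 𝓝[≥] t, t ≤ u := self_mem_nhdsWithin
      refine h1.mono fun u hu => lt_of_le_of_lt ?_ hc
      exact ciSup_le fun s => le_ciSup (bdd_clamp f t) ⟨s.1, lt_of_le_of_lt hu s.2⟩

/-- A transition function (Markov semigroup of kernels) on a measurable space. -/
structure TransitionFunction (E : Type) [MeasurableSpace E] where
  ker : ℝ≥0 → Kernel E E
  markov : ∀ t, IsMarkovKernel (ker t)
  zero : ker 0 = Kernel.id
  add : ∀ s t, ker (s + t) = ker t ∘ₖ ker s

/-- The sigma-algebra on path space generated by the path up to time `s`. -/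
abbrev past (E : Type) [MeasurableSpace E] (s : ℝ≥0) : MeasurableSpace (ℝ≥0 → E) :=
  ⨆ u ≤ s, MeasurableSpace.comap (fun ω : ℝ≥0 → E => ω u) inferInstance

/-- A continuous-time time-homogeneous Markov process on the measurable space `E`: a transition
function together with, for each starting state `x`, the law `law x` of the process on the space
of all paths; the process starts at `x` and has the simple Markov property. -/
structure MarkovProcess (E : Type) [MeasurableSpace E] extends TransitionFunction E where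
  law : Kernel E (ℝ≥0 → E)
  prob : IsMarkovKernel law
  start : ∀ x, (law x).map (fun ω => ω 0) = Measure.dirac x
  simpleMarkov : ∀ (x : E) (s t : ℝ≥0) (H : Set (ℝ≥0 → E)) (A : Set E),
    MeasurableSet[past E s] H → MeasurableSet A →
      law x (H ∩ {ω | ω (s + t) ∈ A}) = ∫⁻ ω in H, ker t (ω s) A ∂(law x)

/-- The distance function `d_x(t) = ‖P_x(X_t ∈ ·) - π‖`. -/
def distFun {E : Type} [MeasurableSpace E] (T : TransitionFunction E) (π : Measure E) (x : E)
    (t : ℝ≥0) : ℝ := tv (T.ker t x) π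

/-- The distance function from the state `x`, as an element of the space of profiles. Under
`x ∼ π` this is the random function `F`. -/
def profile {E : Type} [MeasurableSpace E] (T : TransitionFunction E) (π : Measure E) (x : E) :
    Profile := reg (distFun T π x)

instance {E : Type} [MeasurableSpace E] (T : TransitionFunction E) (t : ℝ≥0) :
    IsMarkovKernel (T.ker t) := T.markov t

/-- The law of `X_t` under `P_x` is `ker t x`. -/
theorem MarkovProcess.map_law {E : Type} [MeasurableSpace E] (X : MarkovProcess E) (x : E)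
    (t : ℝ≥0) : (X.law x).map (fun ω => ω t) = X.ker t x := by
  ext A hA
  have hev : ∀ u : ℝ≥0, Measurable (fun ω : ℝ≥0 → E => ω u) := fun u => measurable_pi_apply u
  have h1 := X.simpleMarkov x 0 t univ A MeasurableSet.univ hA
  rw [univ_inter, zero_add, Measure.restrict_univ] at h1
  rw [Measure.map_apply (hev t) hA]
  refine h1.trans ?_
  rw [← lintegral_map (g := fun ω : ℝ≥0 → E => ω 0) (Kernel.measurable_coe _ hA) (hev 0),
    X.start, lintegral_dirac' _ (Kernel.measurable_coe _ hA)]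

section loebSection

/-! ### ultralimits -/

/-- the limit of a sequence in `[0,∞]` along an ultrafilter -/
def ulim (U : Ultrafilter ℕ) (f : ℕ → ℝ≥0∞) : ℝ≥0∞ := (U.map f).lim

variable {U : Ultrafilter ℕ}

theorem tendsto_ulim (f : ℕ → ℝ≥0∞) : Tendsto f (U : Filter ℕ) (𝓝 (ulim U f)) :=
  (U.map f).le_nhds_lim

theorem ulim_eq {f : ℕ → ℝ≥0∞} {a : ℝ≥0∞} (h : Tendsto f (U : Filter ℕ) (𝓝 a)) :
    ulim U f = a := tendsto_nhds_unique (tendsto_ulim f) h

theorem ulim_congr {f g : ℕ → ℝ≥0∞} (h : ∀ᶠ n in (U : Filter ℕ), f n = g n) :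
    ulim U f = ulim U g :=
  ulim_eq ((tendsto_ulim g).congr' (h.mono fun _ hn => hn.symm))

theorem ulim_mono {f g : ℕ → ℝ≥0∞} (h : ∀ᶠ n in (U : Filter ℕ), f n ≤ g n) :
    ulim U f ≤ ulim U g :=
  le_of_tendsto_of_tendsto (tendsto_ulim f) (tendsto_ulim g) h

theorem ulim_const (a : ℝ≥0∞) : ulim U (fun _ => a) = a := ulim_eq tendsto_const_nhds

theorem ulim_add (f g : ℕ → ℝ≥0∞) : ulim U (fun n => f n + g n) = ulim U f + ulim U g :=
  ulim_eq ((tendsto_ulim f).add (tendsto_ulim g))

theorem ulim_sum {ι : Type*} (s : Finset ι) (f : ι → ℕ → ℝ≥0∞) :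
    ulim U (fun n => ∑ i ∈ s, f i n) = ∑ i ∈ s, ulim U (f i) :=
  ulim_eq (tendsto_finsetSum s fun i _ => tendsto_ulim (f i))

theorem ulim_mul_const (f : ℕ → ℝ≥0∞) (c : ℝ≥0∞) (hc : c ≠ ∞) :
    ulim U (fun n => c * f n) = c * ulim U f :=
  ulim_eq (ENNReal.Tendsto.const_mul (tendsto_ulim f) (Or.inr hc))

/-! ### internal sets -/

/-- The ultraproduct sample space (without identification of equivalent sequences). -/
def Ult (_U : Ultrafilter ℕ) (S : ℕ → Type) : Type := ∀ n, S n

variable {S : ℕ → Type}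

/-- the internal set given by a sequence of sets -/
def intl (U : Ultrafilter ℕ) (A : ∀ n, Set (S n)) : Set (Ult U S) :=
  {x | ∀ᶠ n in (U : Filter ℕ), x n ∈ A n}

theorem mem_intl {A : ∀ n, Set (S n)} {x : Ult U S} :
    x ∈ intl U A ↔ ∀ᶠ n in (U : Filter ℕ), x n ∈ A n := Iff.rfl

theorem intl_compl (A : ∀ n, Set (S n)) : (intl U A)ᶜ = intl U (fun n => (A n)ᶜ) := by
  ext x
  rw [mem_compl_iff, mem_intl, mem_intl]
  exact Ultrafilter.eventually_not.symm

theorem intl_inter (A B : ∀ n, Set (S n)) :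
    intl U A ∩ intl U B = intl U (fun n => A n ∩ B n) := by
  ext x
  rw [mem_inter_iff, mem_intl, mem_intl, mem_intl]
  exact eventually_and.symm

theorem intl_union (A B : ∀ n, Set (S n)) :
    intl U A ∪ intl U B = intl U (fun n => A n ∪ B n) := by
  ext x
  rw [mem_union, mem_intl, mem_intl, mem_intl]
  exact Ultrafilter.eventually_or.symm

theorem intl_diff (A B : ∀ n, Set (S n)) :
    intl U A \ intl U B = intl U (fun n => A n \ B n) := by
  rw [Set.sdiff_eq, intl_compl, intl_inter]; rfl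

theorem intl_empty : intl U (fun n => (∅ : Set (S n))) = ∅ := by
  ext x
  rw [mem_intl]
  simp [U.neBot.ne]

theorem intl_univ : intl U (fun n => (univ : Set (S n))) = univ := by
  ext x
  rw [mem_intl]
  simp

theorem intl_subset_iff [∀ n, Nonempty (S n)] (A B : ∀ n, Set (S n)) :
    intl U A ⊆ intl U B ↔ ∀ᶠ n in (U : Filter ℕ), A n ⊆ B n := by
  classical
  constructor
  · intro h
    by_contra hcon
    rw [← Ultrafilter.eventually_not] at hcon
    let x : Ult U S := fun n => if h : ∃ y, y ∈ A n ∧ y ∉ B n then h.choose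
      else Classical.arbitrary _
    have hx : ∀ᶠ n in (U : Filter ℕ), x n ∈ A n ∧ x n ∉ B n := by
      refine hcon.mono fun n hn => ?_
      have h1 : ∃ y, y ∈ A n ∧ y ∉ B n := not_subset.mp hn
      have : x n = h1.choose := dif_pos h1
      rw [this]
      exact h1.choose_spec
    have h1 : x ∈ intl U A := hx.mono fun n hn => hn.1
    have h2 : x ∈ intl U B := h h1
    have h3 := (hx.and h2).exists
    obtain ⟨n, hn, hn2⟩ := h3
    exact hn.2 hn2
  · intro h x hx
    exact (h.and hx).mono fun n hn => hn.1 hn.2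

theorem intl_eq_iff [∀ n, Nonempty (S n)] (A B : ∀ n, Set (S n)) :
    intl U A = intl U B ↔ ∀ᶠ n in (U : Filter ℕ), A n = B n := by
  constructor
  · intro h
    have h1 := (intl_subset_iff A B).mp h.le
    have h2 := (intl_subset_iff B A).mp h.ge
    exact (h1.and h2).mono fun n hn => subset_antisymm hn.1 hn.2
  · intro h
    apply subset_antisymm
    · exact (intl_subset_iff A B).mpr (h.mono fun n hn => hn.le)
    · exact (intl_subset_iff B A).mpr (h.mono fun n hn => hn.ge)

theorem intl_biUnion {ι : Type*} (s : Finset ι) (B : ι → ∀ n, Set (S n)) :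
    (⋃ i ∈ s, intl U (B i)) = intl U (fun n => ⋃ i ∈ s, B i n) := by
  classical
  induction s using Finset.induction_on with
  | empty => simp [intl_empty]
  | insert a s ha ih =>
    rw [Finset.set_biUnion_insert, ih, intl_union]
    congr 1
    ext n
    rw [Finset.set_biUnion_insert]

/-- countable saturation -/
theorem saturation [∀ n, Nonempty (S n)] (hU : (U : Filter ℕ) ≤ atTop) (A : ∀ n, Set (S n))
    (B : ℕ → ∀ n, Set (S n)) (h : intl U A ⊆ ⋃ i, intl U (B i)) :
    ∃ k, intl U A ⊆ ⋃ i ∈ Finset.range k, intl U (B i) := by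
  classical
  by_contra hcon
  push Not at hcon
  -- D k n = A n minus the union of the first k sets
  let D : ℕ → ∀ n, Set (S n) := fun k n => A n \ ⋃ i ∈ Finset.range k, B i n
  have hDanti : ∀ n k l, k ≤ l → D l n ⊆ D k n := by
    intro n k l hkl y hy
    refine ⟨hy.1, fun hy2 => hy.2 ?_⟩
    rw [mem_iUnion₂] at hy2 ⊢
    obtain ⟨i, hi, hyi⟩ := hy2
    exact ⟨i, Finset.mem_range.mpr ((Finset.mem_range.mp hi).trans_le hkl), hyi⟩
  have hD : ∀ k, ∀ᶠ n in (U : Filter ℕ), (D k n).Nonempty := by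
    intro k
    have h1 := hcon k
    rw [intl_biUnion, intl_subset_iff, ← Ultrafilter.eventually_not] at h1
    refine h1.mono fun n hn => ?_
    obtain ⟨y, hy1, hy2⟩ := not_subset.mp hn
    exact ⟨y, hy1, hy2⟩
  -- choose for each n the largest k ≤ n with D k n nonempty
  let good : ℕ → ℕ → Prop := fun n k => (D k n).Nonempty
  let x : Ult U S := fun n =>
    if h0 : (D (Nat.findGreatest (good n) n) n).Nonempty then h0.choose
    else Classical.arbitrary _
  have hx : ∀ k, ∀ᶠ n in (U : Filter ℕ), x n ∈ D k n := by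
    intro k
    have h1 : ∀ᶠ n in (U : Filter ℕ), k ≤ n := hU (eventually_ge_atTop k)
    refine (h1.and (hD k)).mono fun n hn => ?_
    have h2 : k ≤ Nat.findGreatest (good n) n := Nat.le_findGreatest hn.1 hn.2
    have h3 : good n (Nat.findGreatest (good n) n) := Nat.findGreatest_spec hn.1 hn.2
    have h4 : x n = Exists.choose h3 := dif_pos h3
    rw [h4]
    exact hDanti n _ _ h2 (Exists.choose_spec h3)
  have hxA : x ∈ intl U A := (hx 0).mono fun n hn => hn.1
  obtain ⟨i, hi⟩ := mem_iUnion.mp (h hxA)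
  have h5 := ((hx (i + 1)).and hi).exists
  obtain ⟨n, hn1, hn2⟩ := h5
  apply hn1.2
  rw [mem_iUnion₂]
  exact ⟨i, Finset.mem_range.mpr (Nat.lt_succ_self i), hn2⟩

/-! ### the Loeb sigma-algebra -/

variable [∀ n, MeasurableSpace (S n)]

/-- internal sets with measurable components -/
def intSets (U : Ultrafilter ℕ) (S : ℕ → Type) [∀ n, MeasurableSpace (S n)] :
    Set (Set (Ult U S)) :=
  {s | ∃ A : ∀ n, Set (S n), (∀ n, MeasurableSet (A n)) ∧ s = intl U A}

instance : MeasurableSpace (Ult U S) := MeasurableSpace.generateFrom (intSets U S)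

theorem isSetRing_intSets : IsSetRing (intSets U S) where
  empty_mem := ⟨fun _ => ∅, fun _ => MeasurableSet.empty, intl_empty.symm⟩
  union_mem := by
    rintro _ _ ⟨A, hA, rfl⟩ ⟨B, hB, rfl⟩
    exact ⟨fun n => A n ∪ B n, fun n => (hA n).union (hB n), intl_union A B⟩
  sdiff_mem := by
    rintro _ _ ⟨A, hA, rfl⟩ ⟨B, hB, rfl⟩
    exact ⟨fun n => A n \ B n, fun n => (hA n).diff (hB n), intl_diff A B⟩

theorem measurableSet_intl {A : ∀ n, Set (S n)} (hA : ∀ n, MeasurableSet (A n)) :
    MeasurableSet (intl U A) :=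
  MeasurableSpace.measurableSet_generateFrom ⟨A, hA, rfl⟩

open Classical in
/-- value of the Loeb content -/
def cont (U : Ultrafilter ℕ) (μ : ∀ n, Measure (S n)) (s : Set (Ult U S)) : ℝ≥0∞ :=
  if h : s ∈ intSets U S then ulim U (fun n => μ n (h.choose n)) else 0

theorem cont_intl [∀ n, Nonempty (S n)] (μ : ∀ n, Measure (S n)) (A : ∀ n, Set (S n))
    (hA : ∀ n, MeasurableSet (A n)) : cont U μ (intl U A) = ulim U (fun n => μ n (A n)) := by
  have h : intl U A ∈ intSets U S := ⟨A, hA, rfl⟩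
  rw [cont, dif_pos h]
  apply ulim_congr
  have h1 := (intl_eq_iff _ _).mp h.choose_spec.2
  exact h1.mono fun n hn => by rw [hn]

/-- the Loeb content -/
def addCont [∀ n, Nonempty (S n)] (U : Ultrafilter ℕ) (μ : ∀ n, Measure (S n)) :
    AddContent ℝ≥0∞ (intSets U S) :=
  IsSetRing.addContent_of_union (cont U μ) isSetRing_intSets
    (by
      have h := cont_intl (U := U) μ (fun n => (∅ : Set (S n))) (fun _ => MeasurableSet.empty)
      rw [intl_empty] at h
      rw [h]
      simp [ulim_const])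
    (by
      rintro _ _ ⟨A, hA, rfl⟩ ⟨B, hB, rfl⟩ hd
      rw [intl_union, cont_intl μ _ (fun n => (hA n).union (hB n)), cont_intl μ _ hA,
        cont_intl μ _ hB, ← ulim_add]
      apply ulim_congr
      rw [Set.disjoint_iff_inter_eq_empty, intl_inter, ← intl_empty (U := U) (S := S),
        intl_eq_iff] at hd
      refine hd.mono fun n hn => ?_
      exact measure_union (Set.disjoint_iff_inter_eq_empty.mpr hn) (hB n))

theorem addCont_apply [∀ n, Nonempty (S n)] (μ : ∀ n, Measure (S n)) (s : Set (Ult U S)) :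
    addCont U μ s = cont U μ s := rfl

theorem addCont_subadd [∀ n, Nonempty (S n)] (hU : (U : Filter ℕ) ≤ atTop)
    (μ : ∀ n, Measure (S n)) : (addCont U μ).IsSigmaSubadditive := by
  intro f hf hfU
  choose B hB hfB using hf
  obtain ⟨A, hA, hAU⟩ := id hfU
  have h1 : intl U A ⊆ ⋃ i, intl U (B i) := by
    rw [← hAU]
    exact iUnion_mono fun i => (hfB i).le
  obtain ⟨k, hk⟩ := saturation hU A B h1
  have h2 : (⋃ i, f i) ⊆ ⋃ i ∈ Finset.range k, f i := by
    rw [hAU]
    refine hk.trans ?_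
    exact iUnion₂_mono fun i _ => (hfB i).ge
  calc addCont U μ (⋃ i, f i)
      ≤ addCont U μ (⋃ i ∈ Finset.range k, f i) := by
        apply addContent_mono isSetRing_intSets.isSetSemiring hfU
        · exact isSetRing_intSets.biUnion_mem _ fun i _ => ⟨B i, hB i, hfB i⟩
        · exact h2
    _ ≤ ∑ i ∈ Finset.range k, addCont U μ (f i) :=
        addContent_biUnion_le isSetRing_intSets fun i _ => ⟨B i, hB i, hfB i⟩
    _ ≤ ∑' i, addCont U μ (f i) := ENNReal.sum_le_tsum _

/-- The Loeb measure of a sequence of measures (zero if the ultrafilter is principal). -/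
def loeb [∀ n, Nonempty (S n)] (hU : (U : Filter ℕ) ≤ atTop) (μ : ∀ n, Measure (S n)) :
    Measure (Ult U S) :=
  (addCont U μ).measure isSetRing_intSets.isSetSemiring le_rfl (addCont_subadd hU μ)

variable [∀ n, Nonempty (S n)] (hU : (U : Filter ℕ) ≤ atTop)

theorem loeb_intl (μ : ∀ n, Measure (S n)) {A : ∀ n, Set (S n)}
    (hA : ∀ n, MeasurableSet (A n)) :
    loeb hU μ (intl U A) = ulim U (fun n => μ n (A n)) := by
  rw [loeb, AddContent.measure_eq _ _ rfl _ (show intl U A ∈ intSets U S from ⟨A, hA, rfl⟩),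
    addCont_apply, cont_intl μ A hA]

instance loeb_prob (μ : ∀ n, Measure (S n)) [∀ n, IsProbabilityMeasure (μ n)] :
    IsProbabilityMeasure (loeb hU μ) := by
  constructor
  rw [← intl_univ, loeb_intl hU μ (fun _ => MeasurableSet.univ)]
  simp [ulim_const]

/-- extensionality for finite measures on the Loeb sigma-algebra -/
theorem ext_intl {μ ν : Measure (Ult U S)} [IsFiniteMeasure μ]
    (h : ∀ A : ∀ n, Set (S n), (∀ n, MeasurableSet (A n)) → μ (intl U A) = ν (intl U A)) :
    μ = ν := by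
  apply ext_of_generate_finite (intSets U S) rfl isSetRing_intSets.isSetSemiring.isPiSystem
  · rintro _ ⟨A, hA, rfl⟩
    exact h A hA
  · have := h (fun n => univ) (fun _ => MeasurableSet.univ)
    rwa [intl_univ] at this

/-! ### internal functions -/

/-- lifting of an internal function -/
def lift (U : Ultrafilter ℕ) (f : ∀ n, S n → ℝ≥0∞) (x : Ult U S) : ℝ≥0∞ :=
  ulim U (fun n => f n (x n))

theorem measurable_lift (f : ∀ n, S n → ℝ≥0∞) (hf : ∀ n, Measurable (f n)) :
    Measurable (lift U f) := by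
  apply measurable_of_Ioi
  intro c
  -- {x | c < lift f x}
  have h1 : lift U f ⁻¹' Ioi c = ⋃ q : ℚ, ⋃ (_ : c < ((Real.toNNReal q : ℝ≥0) : ℝ≥0∞)),
      intl U (fun n => {y | ((Real.toNNReal q : ℝ≥0) : ℝ≥0∞) ≤ f n y}) := by
    ext x
    simp only [mem_preimage, mem_Ioi, mem_iUnion, exists_prop]
    constructor
    · intro h
      obtain ⟨q', hq0, hcq, hql⟩ := ENNReal.lt_iff_exists_rat_btwn.mp h
      refine ⟨q', hcq, ?_⟩
      exact ((tendsto_ulim _).eventually (lt_mem_nhds hql)).mono fun n hn => hn.le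
    · rintro ⟨q, hq1, hq2⟩
      refine lt_of_lt_of_le hq1 ?_
      exact ge_of_tendsto (tendsto_ulim _) hq2
  rw [h1]
  refine MeasurableSet.iUnion fun q => MeasurableSet.iUnion fun _ => ?_
  exact measurableSet_intl fun n => measurableSet_le measurable_const (hf n)

theorem indicator_intl (A : ∀ n, Set (S n)) (x : Ult U S) (c : ℝ≥0∞) :
    (intl U A).indicator (fun _ => c) x =
      ulim U (fun n => (A n).indicator (fun _ => c) (x n)) := by
  classical
  symm
  apply ulim_eq
  by_cases h : x ∈ intl U A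
  · rw [indicator_of_mem h]
    apply tendsto_const_nhds.congr'
    exact (mem_intl.mp h).mono fun n hn => (indicator_of_mem hn (fun _ => c)).symm
  · rw [indicator_of_notMem h]
    have h2 : x ∈ intl U (fun n => (A n)ᶜ) := by rw [← intl_compl]; exact h
    apply tendsto_const_nhds.congr'
    exact (mem_intl.mp h2).mono fun n hn => (indicator_of_notMem hn (fun _ => c)).symm

/-- the sets used in the layering of a function -/
def lev {T : Type} (f : T → ℝ≥0∞) (ε : ℝ≥0) (k : ℕ) : Set T := {y | ((k + 1 : ℕ) : ℝ≥0∞) * ε ≤ f y}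

theorem lay_le {T : Type} (f : T → ℝ≥0∞) (ε : ℝ≥0) (y : T) (K : ℕ) :
    ∑ k ∈ Finset.range K, (lev f ε k).indicator (fun _ => (ε : ℝ≥0∞)) y ≤ f y := by
  induction K with
  | zero => simp
  | succ K ih =>
    rw [Finset.sum_range_succ]
    by_cases h : y ∈ lev f ε K
    · rw [indicator_of_mem h]
      have h0 : ∑ k ∈ Finset.range K, (lev f ε k).indicator (fun _ => (ε : ℝ≥0∞)) y
          ≤ (K : ℝ≥0∞) * ε := by
        calc ∑ k ∈ Finset.range K, (lev f ε k).indicator (fun _ => (ε : ℝ≥0∞)) y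
            ≤ ∑ k ∈ Finset.range K, (ε : ℝ≥0∞) :=
              Finset.sum_le_sum fun k _ => indicator_le_self' (fun _ _ => zero_le) y
          _ = (K : ℝ≥0∞) * ε := by simp
      have h2 : ((K + 1 : ℕ) : ℝ≥0∞) * ε ≤ f y := h
      refine le_trans (le_trans (add_le_add h0 le_rfl) (le_of_eq ?_)) h2
      push_cast; ring
    · rw [indicator_of_notMem h, add_zero]; exact ih

theorem le_lay {T : Type} (f : T → ℝ≥0∞) (ε : ℝ≥0) (y : T) (K : ℕ)
    (h : f y ≤ ((K + 1 : ℕ) : ℝ≥0∞) * ε) :
    f y ≤ ∑ k ∈ Finset.range K, (lev f ε k).indicator (fun _ => (ε : ℝ≥0∞)) y + ε := by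
  induction K with
  | zero => simpa using h
  | succ K ih =>
    by_cases h1 : f y ≤ ((K + 1 : ℕ) : ℝ≥0∞) * ε
    · refine (ih h1).trans ?_
      rw [Finset.sum_range_succ]
      exact add_le_add_left le_self_add _
    · push Not at h1
      have h2 : ∀ k ∈ Finset.range (K + 1), (lev f ε k).indicator (fun _ => (ε : ℝ≥0∞)) y = ε := by
        intro k hk
        apply indicator_of_mem
        show ((k + 1 : ℕ) : ℝ≥0∞) * ε ≤ f y
        refine le_trans ?_ h1.le
        have : k + 1 ≤ K + 1 := Finset.mem_range.mp hk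
        gcongr
      rw [Finset.sum_congr rfl h2]
      refine h.trans (le_of_eq ?_)
      simp
      ring

/-- The integral formula for bounded internal functions. -/
theorem lintegral_lift (μ : ∀ n, Measure (S n)) [∀ n, IsProbabilityMeasure (μ n)]
    (f : ∀ n, S n → ℝ≥0∞) (hf : ∀ n, Measurable (f n)) (C : ℝ≥0)
    (hC : ∀ n y, f n y ≤ C) :
    ∫⁻ x, lift U f x ∂(loeb hU μ) = ulim U (fun n => ∫⁻ y, f n y ∂(μ n)) := by
  classical
  have key : ∀ ε : ℝ≥0, 0 < ε →
      ∫⁻ x, lift U f x ∂(loeb hU μ) ≤ ulim U (fun n => ∫⁻ y, f n y ∂(μ n)) + ε ∧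
      ulim U (fun n => ∫⁻ y, f n y ∂(μ n)) ≤ ∫⁻ x, lift U f x ∂(loeb hU μ) + ε := by
    intro ε hε
    obtain ⟨K, hK⟩ := exists_nat_ge (C / ε)
    have hK' : (C : ℝ≥0∞) ≤ ((K + 1 : ℕ) : ℝ≥0∞) * ε := by
      have h1 : C ≤ K * ε := by rwa [div_le_iff₀ hε] at hK
      have h2 : C ≤ ((K + 1 : ℕ) : ℝ≥0) * ε :=
        h1.trans (mul_le_mul_left (by push_cast; exact le_self_add) ε)
      exact_mod_cast h2
    have hlev : ∀ k n, MeasurableSet (lev (f n) ε k) := fun k n =>
      measurableSet_le measurable_const (hf n)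
    let g : ∀ n, S n → ℝ≥0∞ := fun n y =>
      ∑ k ∈ Finset.range K, (lev (f n) ε k).indicator (fun _ => (ε : ℝ≥0∞)) y
    let G : Ult U S → ℝ≥0∞ := fun x =>
      ∑ k ∈ Finset.range K, (intl U (fun n => lev (f n) ε k)).indicator
        (fun _ => (ε : ℝ≥0∞)) x
    have hG : ∀ x, G x = ulim U (fun n => g n (x n)) := by
      intro x
      rw [ulim_sum (Finset.range K)
        (fun k n => (lev (f n) ε k).indicator (fun _ => (ε : ℝ≥0∞)) (x n))]
      exact Finset.sum_congr rfl fun k _ => indicator_intl _ _ _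
    have hg1 : ∀ n y, g n y ≤ f n y := fun n y => lay_le (f n) ε y K
    have hg2 : ∀ n y, f n y ≤ g n y + ε := fun n y =>
      le_lay (f n) ε y K ((hC n y).trans hK')
    have hintg : ∀ n, ∫⁻ y, g n y ∂(μ n) =
        ∑ k ∈ Finset.range K, (ε : ℝ≥0∞) * μ n (lev (f n) ε k) := by
      intro n
      rw [lintegral_finsetSum _ (fun k _ => measurable_const.indicator (hlev k n))]
      refine Finset.sum_congr rfl fun k _ => ?_
      rw [lintegral_indicator_const (hlev k n)]
    have hintG : ∫⁻ x, G x ∂(loeb hU μ) =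
        ∑ k ∈ Finset.range K, (ε : ℝ≥0∞) * loeb hU μ (intl U (fun n => lev (f n) ε k)) := by
      rw [lintegral_finsetSum _ (fun k _ => measurable_const.indicator
        (measurableSet_intl (hlev k)))]
      refine Finset.sum_congr rfl fun k _ => ?_
      rw [lintegral_indicator_const (measurableSet_intl (hlev k))]
    have hEq : ∫⁻ x, G x ∂(loeb hU μ) = ulim U (fun n => ∫⁻ y, g n y ∂(μ n)) := by
      rw [hintG]
      simp_rw [hintg]
      rw [ulim_sum (Finset.range K) (fun k n => (ε : ℝ≥0∞) * μ n (lev (f n) ε k))]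
      refine Finset.sum_congr rfl fun k _ => ?_
      rw [ulim_mul_const _ _ ENNReal.coe_ne_top, loeb_intl hU μ (hlev k)]
    have hGlow : ∀ x, G x ≤ lift U f x := by
      intro x
      rw [hG]
      exact ulim_mono (Eventually.of_forall fun n => hg1 n _)
    have hGup : ∀ x, lift U f x ≤ G x + ε := by
      intro x
      rw [hG]
      calc lift U f x ≤ ulim U (fun n => g n (x n) + ε) :=
            ulim_mono (Eventually.of_forall fun n => hg2 n _)
        _ = _ := by rw [ulim_add, ulim_const]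
    constructor
    · calc ∫⁻ x, lift U f x ∂(loeb hU μ) ≤ ∫⁻ x, (G x + ε) ∂(loeb hU μ) :=
            lintegral_mono hGup
        _ = ∫⁻ x, G x ∂(loeb hU μ) + ε := by
            rw [lintegral_add_right _ measurable_const]; simp
        _ = ulim U (fun n => ∫⁻ y, g n y ∂(μ n)) + ε := by rw [hEq]
        _ ≤ _ := add_le_add_left (ulim_mono (Eventually.of_forall fun n =>
            lintegral_mono (hg1 n))) _
    · calc ulim U (fun n => ∫⁻ y, f n y ∂(μ n))
          ≤ ulim U (fun n => ∫⁻ y, g n y ∂(μ n) + ε) := by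
            refine ulim_mono (Eventually.of_forall fun n => ?_)
            calc ∫⁻ y, f n y ∂(μ n) ≤ ∫⁻ y, (g n y + ε) ∂(μ n) := lintegral_mono (hg2 n)
              _ = _ := by rw [lintegral_add_right _ measurable_const]; simp
        _ = ∫⁻ x, G x ∂(loeb hU μ) + ε := by rw [ulim_add, ulim_const, hEq]
        _ ≤ _ := add_le_add_left (lintegral_mono hGlow) _
  apply le_antisymm
  · exact ENNReal.le_of_forall_pos_le_add fun ε hε _ => (key ε hε).1
  · exact ENNReal.le_of_forall_pos_le_add fun ε hε _ => (key ε hε).2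

/-! ### kernels -/

theorem measurable_loeb_apply {T : Type} [MeasurableSpace T] (m : T → ∀ n, Measure (S n))
    [∀ t n, IsProbabilityMeasure (m t n)]
    (h : ∀ A : ∀ n, Set (S n), (∀ n, MeasurableSet (A n)) →
      Measurable fun t => ulim U (fun n => m t n (A n))) :
    Measurable fun t => loeb hU (m t) := by
  apply Measurable.measure_of_isPiSystem_of_isProbabilityMeasure
    (S := intSets U S) rfl isSetRing_intSets.isSetSemiring.isPiSystem
  rintro _ ⟨A, hA, rfl⟩
  simp_rw [loeb_intl hU _ hA]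
  exact h A hA

/-! ### total variation -/

theorem abs_real_sub_le_one {T : Type} [MeasurableSpace T] (μ ν : Measure T)
    [IsProbabilityMeasure μ] [IsProbabilityMeasure ν] (A : Set T) :
    |μ.real A - ν.real A| ≤ 1 := by
  have h1 : μ.real A ≤ 1 := measureReal_le_one
  have h2 : ν.real A ≤ 1 := measureReal_le_one
  have h3 : 0 ≤ μ.real A := measureReal_nonneg
  have h4 : 0 ≤ ν.real A := measureReal_nonneg
  rw [abs_le]; constructor <;> linarith

theorem bdd_tv {T : Type} [MeasurableSpace T] (μ ν : Measure T)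
    [IsProbabilityMeasure μ] [IsProbabilityMeasure ν] :
    BddAbove (range fun A : {A : Set T // MeasurableSet A} => |μ.real A - ν.real A|) :=
  ⟨1, by rintro _ ⟨A, rfl⟩; exact abs_real_sub_le_one μ ν A⟩

theorem le_tv {T : Type} [MeasurableSpace T] (μ ν : Measure T)
    [IsProbabilityMeasure μ] [IsProbabilityMeasure ν] {A : Set T} (hA : MeasurableSet A) :
    |μ.real A - ν.real A| ≤ tv μ ν := le_ciSup (bdd_tv μ ν) ⟨A, hA⟩

theorem tv_le {T : Type} [MeasurableSpace T] (μ ν : Measure T) {c : ℝ}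
    (h : ∀ A : Set T, MeasurableSet A → |μ.real A - ν.real A| ≤ c) : tv μ ν ≤ c := by
  have : Nonempty {A : Set T // MeasurableSet A} := ⟨⟨∅, MeasurableSet.empty⟩⟩
  exact ciSup_le fun A => h A.1 A.2

theorem tv_nonneg {T : Type} [MeasurableSpace T] (μ ν : Measure T)
    [IsProbabilityMeasure μ] [IsProbabilityMeasure ν] : 0 ≤ tv μ ν :=
  (abs_nonneg _).trans (le_tv μ ν MeasurableSet.univ)

theorem tv_le_one {T : Type} [MeasurableSpace T] (μ ν : Measure T)
    [IsProbabilityMeasure μ] [IsProbabilityMeasure ν] : tv μ ν ≤ 1 :=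
  tv_le μ ν fun A _ => abs_real_sub_le_one μ ν A

theorem tendsto_real (μ : ∀ n, Measure (S n)) [∀ n, IsProbabilityMeasure (μ n)]
    {A : ∀ n, Set (S n)} (hA : ∀ n, MeasurableSet (A n)) :
    Tendsto (fun n => (μ n).real (A n)) (U : Filter ℕ) (𝓝 ((loeb hU μ).real (intl U A))) := by
  refine (ENNReal.tendsto_toReal (measure_ne_top _ _)).comp ?_
  rw [loeb_intl hU μ hA]
  exact tendsto_ulim _

theorem exists_approx (μ ν : Measure (Ult U S)) [IsProbabilityMeasure μ] [IsProbabilityMeasure ν]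
    {A : Set (Ult U S)} (hA : MeasurableSet A) {ε : ℝ} (hε : 0 < ε) :
    ∃ B : ∀ n, Set (S n), (∀ n, MeasurableSet (B n)) ∧
      |μ.real A - μ.real (intl U B)| ≤ ε ∧ |ν.real A - ν.real (intl U B)| ≤ ε := by
  have h1 := exists_measure_symmDiff_lt_of_generateFrom_isSetRing (μ := μ + ν)
    (C := intSets U S) isSetRing_intSets
    ⟨{univ}, countable_singleton _, by
      rintro _ rfl
      exact ⟨fun _ => univ, fun _ => MeasurableSet.univ, intl_univ.symm⟩, by simp⟩ rfl hA
    (ε := ENNReal.ofReal ε) (by simpa using hε)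
  obtain ⟨_, ⟨B, hB, rfl⟩, hlt⟩ := h1
  have hBm : MeasurableSet (intl U B) := measurableSet_intl hB
  refine ⟨B, hB, ?_⟩
  have gen : ∀ ρ : Measure (Ult U S), IsProbabilityMeasure ρ →
      ρ (symmDiff (intl U B) A) ≤ ENNReal.ofReal ε → |ρ.real A - ρ.real (intl U B)| ≤ ε := by
    intro ρ _ hρ
    have h2 : ρ.real (symmDiff (intl U B) A) ≤ ε := by
      rw [Measure.real]
      exact ENNReal.toReal_le_of_le_ofReal hε.le hρ
    have h3 : |ρ.real A - ρ.real (intl U B)| ≤ ρ.real (symmDiff (intl U B) A) := by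
      rw [abs_sub_comm]
      exact abs_measureReal_sub_le_measureReal_symmDiff hBm.nullMeasurableSet hA.nullMeasurableSet
    exact h3.trans h2
  rw [Measure.add_apply] at hlt
  exact ⟨gen μ inferInstance (le_self_add.trans hlt.le), gen ν inferInstance
    (le_add_self.trans hlt.le)⟩

/-- Total variation distance of Loeb measures is the ultralimit of the distances. -/
theorem tendsto_tv (μ ν : ∀ n, Measure (S n)) [∀ n, IsProbabilityMeasure (μ n)]
    [∀ n, IsProbabilityMeasure (ν n)] :
    Tendsto (fun n => tv (μ n) (ν n)) (U : Filter ℕ) (𝓝 (tv (loeb hU μ) (loeb hU ν))) := by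
  classical
  have habs : ∀ B : ∀ n, Set (S n), (∀ n, MeasurableSet (B n)) →
      Tendsto (fun n => |(μ n).real (B n) - (ν n).real (B n)|) (U : Filter ℕ)
        (𝓝 |(loeb hU μ).real (intl U B) - (loeb hU ν).real (intl U B)|) := fun B hB =>
    ((tendsto_real hU μ hB).sub (tendsto_real hU ν hB)).abs
  refine tendsto_order.mpr ⟨fun c hc => ?_, fun c hc => ?_⟩
  · have : Nonempty {A : Set (Ult U S) // MeasurableSet A} := ⟨⟨∅, MeasurableSet.empty⟩⟩
    obtain ⟨A, hA⟩ := exists_lt_of_lt_ciSup hc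
    obtain ⟨B, hB, h1, h2⟩ := exists_approx (loeb hU μ) (loeb hU ν) A.2
      (ε := (|(loeb hU μ).real A - (loeb hU ν).real A| - c) / 3) (by linarith)
    have h3 : c < |(loeb hU μ).real (intl U B) - (loeb hU ν).real (intl U B)| := by
      have h4 : |(loeb hU μ).real A - (loeb hU ν).real A| ≤
          |(loeb hU μ).real A - (loeb hU μ).real (intl U B)| +
          |(loeb hU μ).real (intl U B) - (loeb hU ν).real (intl U B)| +
          |(loeb hU ν).real A - (loeb hU ν).real (intl U B)| := by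
        have e : (loeb hU μ).real A - (loeb hU ν).real A =
          ((loeb hU μ).real A - (loeb hU μ).real (intl U B)) +
          ((loeb hU μ).real (intl U B) - (loeb hU ν).real (intl U B)) -
          ((loeb hU ν).real A - (loeb hU ν).real (intl U B)) := by ring
        rw [e]
        refine (abs_sub _ _).trans ?_
        gcongr
        exact abs_add_le _ _
      linarith
    refine ((habs B hB).eventually (lt_mem_nhds h3)).mono fun n hn => ?_
    exact hn.trans_le (le_tv (μ n) (ν n) (hB n))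
  · by_contra hcon
    rw [← Ultrafilter.eventually_not] at hcon
    obtain ⟨c', hc1, hc2⟩ := exists_between hc
    have h1 : ∀ᶠ n in (U : Filter ℕ), ∃ A : Set (S n), MeasurableSet A ∧
        c' < |(μ n).real A - (ν n).real A| := by
      refine hcon.mono fun n hn => ?_
      have : Nonempty {A : Set (S n) // MeasurableSet A} := ⟨⟨∅, MeasurableSet.empty⟩⟩
      obtain ⟨A, hA⟩ := exists_lt_of_lt_ciSup (hc2.trans_le (not_lt.mp hn))
      exact ⟨A.1, A.2, hA⟩
    let B : ∀ n, Set (S n) := fun n =>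
      if h : ∃ A : Set (S n), MeasurableSet A ∧ c' < |(μ n).real A - (ν n).real A| then h.choose
      else ∅
    have hB : ∀ n, MeasurableSet (B n) := by
      intro n
      by_cases h : ∃ A : Set (S n), MeasurableSet A ∧ c' < |(μ n).real A - (ν n).real A|
      · have e : B n = h.choose := dif_pos h
        rw [e]; exact h.choose_spec.1
      · have e : B n = ∅ := dif_neg h
        rw [e]; exact MeasurableSet.empty
    have h2 : c' ≤ |(loeb hU μ).real (intl U B) - (loeb hU ν).real (intl U B)| := by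
      refine ge_of_tendsto (habs B hB) (h1.mono fun n hn => ?_)
      have e : B n = hn.choose := dif_pos hn
      rw [e]; exact hn.choose_spec.2.le
    have h3 := le_tv (loeb hU μ) (loeb hU ν) (measurableSet_intl hB)
    linarith


end loebSection

/-! ### total variation and kernels -/

theorem toReal_lintegral_sub_le {E : Type} [MeasurableSpace E] (μ ν : Measure E)
    [IsProbabilityMeasure μ] [IsProbabilityMeasure ν] (f : E → ℝ≥0∞) (hf : Measurable f)
    (h1 : ∀ y, f y ≤ 1) : (∫⁻ y, f y ∂μ).toReal - (∫⁻ y, f y ∂ν).toReal ≤ tv μ ν := by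
  have key : ∀ K : ℕ, (∫⁻ y, f y ∂μ).toReal - (∫⁻ y, f y ∂ν).toReal ≤
      tv μ ν + 1 / ((K : ℝ) + 1) := by
    intro K
    let ε : ℝ≥0 := 1 / ((K : ℝ≥0) + 1)
    have hε : ((K + 1 : ℕ) : ℝ≥0) * ε = 1 := by
      have : ((K : ℝ≥0) + 1) ≠ 0 := by positivity
      push_cast
      exact mul_one_div_cancel this
    have hε' : ((K + 1 : ℕ) : ℝ≥0∞) * (ε : ℝ≥0∞) = 1 := by exact_mod_cast hε
    have hA : ∀ k, MeasurableSet (lev f ε k) := fun k => measurableSet_le measurable_const hf
    let g : E → ℝ≥0∞ := fun y =>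
      ∑ k ∈ Finset.range K, (lev f ε k).indicator (fun _ => (ε : ℝ≥0∞)) y
    have hg1 : ∀ y, g y ≤ f y := fun y => lay_le f ε y K
    have hg2 : ∀ y, f y ≤ g y + ε := fun y => le_lay f ε y K (by rw [hε']; exact h1 y)
    have hint : ∀ ρ : Measure E, IsProbabilityMeasure ρ →
        (∫⁻ y, g y ∂ρ).toReal = ∑ k ∈ Finset.range K, (ε : ℝ) * ρ.real (lev f ε k) := by
      intro ρ _
      rw [lintegral_finsetSum _ (fun k _ => measurable_const.indicator (hA k)),
        ENNReal.toReal_sum]
      · refine Finset.sum_congr rfl fun k _ => ?_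
        rw [lintegral_indicator_const (hA k), ENNReal.toReal_mul]; rfl
      · intro k _
        rw [lintegral_indicator_const (hA k)]
        exact ENNReal.mul_ne_top ENNReal.coe_ne_top (measure_ne_top _ _)
    have hfin : ∀ ρ : Measure E, IsProbabilityMeasure ρ → ∫⁻ y, f y ∂ρ ≠ ∞ := by
      intro ρ _
      refine ne_top_of_le_ne_top ENNReal.one_ne_top ?_
      calc ∫⁻ y, f y ∂ρ ≤ ∫⁻ _, 1 ∂ρ := lintegral_mono h1
        _ = 1 := by simp
    have hfing : ∀ ρ : Measure E, IsProbabilityMeasure ρ → ∫⁻ y, g y ∂ρ ≠ ∞ := fun ρ hρ =>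
      ne_top_of_le_ne_top (hfin ρ hρ) (lintegral_mono hg1)
    have e1 : (∫⁻ y, f y ∂μ).toReal ≤ (∫⁻ y, g y ∂μ).toReal + ε := by
      have h2 : ∫⁻ y, f y ∂μ ≤ ∫⁻ y, g y ∂μ + ε := by
        calc ∫⁻ y, f y ∂μ ≤ ∫⁻ y, (g y + ε) ∂μ := lintegral_mono hg2
          _ = _ := by rw [lintegral_add_right _ measurable_const]; simp
      have h3 := ENNReal.toReal_mono
        (ENNReal.add_ne_top.mpr ⟨hfing μ inferInstance, ENNReal.coe_ne_top⟩) h2
      rwa [ENNReal.toReal_add (hfing μ inferInstance) ENNReal.coe_ne_top,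
        ENNReal.coe_toReal] at h3
    have e2 : (∫⁻ y, g y ∂ν).toReal ≤ (∫⁻ y, f y ∂ν).toReal :=
      ENNReal.toReal_mono (hfin ν inferInstance) (lintegral_mono hg1)
    rw [hint μ inferInstance] at e1
    rw [hint ν inferInstance] at e2
    have htv := tv_nonneg μ ν
    have hsum : ∑ k ∈ Finset.range K, (ε : ℝ) * μ.real (lev f ε k) -
        ∑ k ∈ Finset.range K, (ε : ℝ) * ν.real (lev f ε k) ≤ K * (ε * tv μ ν) := by
      rw [← Finset.sum_sub_distrib]
      calc ∑ k ∈ Finset.range K, ((ε : ℝ) * μ.real (lev f ε k) - (ε : ℝ) * ν.real (lev f ε k))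
          ≤ ∑ k ∈ Finset.range K, (ε : ℝ) * tv μ ν := by
            refine Finset.sum_le_sum fun k _ => ?_
            rw [← mul_sub]
            exact mul_le_mul_of_nonneg_left ((le_abs_self _).trans (le_tv μ ν (hA k))) ε.2
        _ = K * (ε * tv μ ν) := by simp
    have hKε : (K : ℝ) * ε ≤ 1 := by
      have h4 : ((K : ℝ) + 1) * ε = 1 := by
        have := congrArg (fun r : ℝ≥0 => (r : ℝ)) hε
        push_cast at this
        exact this
      have h5 : (0 : ℝ) ≤ ε := ε.2
      nlinarith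
    have hεr : (ε : ℝ) = 1 / ((K : ℝ) + 1) := by
      show ((1 / ((K : ℝ≥0) + 1) : ℝ≥0) : ℝ) = _
      push_cast; rfl
    rw [← hεr]
    nlinarith
  have hlim : Tendsto (fun K : ℕ => tv μ ν + 1 / ((K : ℝ) + 1)) atTop (𝓝 (tv μ ν + 0)) :=
    tendsto_const_nhds.add tendsto_one_div_add_atTop_nhds_zero_nat
  rw [add_zero] at hlim
  exact ge_of_tendsto' hlim key

theorem tv_bind_le {E : Type} [MeasurableSpace E] (μ ν : Measure E) [IsProbabilityMeasure μ]
    [IsProbabilityMeasure ν] (κ : Kernel E E) [IsMarkovKernel κ] :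
    tv (μ.bind κ) (ν.bind κ) ≤ tv μ ν := by
  have hsymm : tv ν μ = tv μ ν := by
    unfold tv
    congr 1
    ext A
    exact abs_sub_comm _ _
  refine tv_le _ _ fun A hA => ?_
  have hm : Measurable fun y => κ y A := Kernel.measurable_coe _ hA
  have e : ∀ ρ : Measure E, (ρ.bind κ).real A = (∫⁻ y, κ y A ∂ρ).toReal := by
    intro ρ
    rw [Measure.real, Measure.bind_apply hA κ.aemeasurable]
  rw [e, e, abs_le]
  have h1 := toReal_lintegral_sub_le μ ν _ hm fun y => prob_le_one
  have h2 := toReal_lintegral_sub_le ν μ _ hm fun y => prob_le_one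
  rw [hsymm] at h2
  constructor <;> linarith

/-! ### the space of profiles -/

theorem Profile.ext' {f g : Profile} (h : ∀ t, f.toFun t = g.toFun t) : f = g := by
  cases f; cases g
  congr
  exact funext h

theorem countable_subb : subb.Countable := by
  have h : subb ⊆ (range fun p : ℚ × ℚ =>
      {f : Profile | ∃ u : ℝ≥0, (u : ℝ) < (p.1 : ℝ) ∧ f.toFun u < (p.2 : ℝ)}) ∪
      (range fun p : ℚ × ℚ => {f : Profile | ∃ u : ℝ≥0, (p.1 : ℝ) < u ∧ (p.2 : ℝ) < f.toFun u}) := by
    rintro s ⟨q, c, _, hs | hs⟩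
    · exact Or.inl ⟨(q, c), hs.symm⟩
    · exact Or.inr ⟨(q, c), hs.symm⟩
  exact ((countable_range _).union (countable_range _)).mono h

instance : SecondCountableTopology Profile := ⟨⟨subb, countable_subb, rfl⟩⟩

theorem measurable_of_subb {T : Type*} [MeasurableSpace T] (F : T → Profile)
    (h1 : ∀ q c : ℚ, 0 ≤ q → MeasurableSet {x | ∃ u : ℝ≥0, (u : ℝ) < (q : ℝ) ∧ (F x).toFun u < (c : ℝ)})
    (h2 : ∀ q c : ℚ, 0 ≤ q → MeasurableSet {x | ∃ u : ℝ≥0, (q : ℝ) < u ∧ (c : ℝ) < (F x).toFun u}) :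
    Measurable F := by
  have e : borel Profile = MeasurableSpace.generateFrom subb :=
    borel_eq_generateFrom_of_subbasis rfl
  show @Measurable T Profile _ (borel Profile) F
  rw [e]
  apply measurable_generateFrom
  rintro s ⟨q, c, hq, rfl | rfl⟩
  · exact h1 q c hq
  · exact h2 q c hq

theorem exists_cont {g : ℝ≥0 → ℝ} (hg : Antitone g) {a b : ℝ≥0} (h : a < b) :
    ∃ t, a < t ∧ t < b ∧ ContinuousAt g t := by
  have h1 : {x | ¬ContinuousAt g x}.Countable := hg.countable_not_continuousAt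
  have h2 : Dense ((fun x : ℝ≥0 => (x : ℝ)) '' {x | ¬ContinuousAt g x})ᶜ :=
    (h1.image _).dense_compl ℝ
  obtain ⟨y, hy, hy1, hy2⟩ := h2.exists_between (show (a : ℝ) < b from h)
  have hy0 : 0 ≤ y := a.2.trans hy1.le
  refine ⟨⟨y, hy0⟩, hy1, hy2, ?_⟩
  by_contra hcon
  exact hy ⟨⟨y, hy0⟩, hcon, rfl⟩

/-- The topology is that of pointwise convergence at the continuity points of the limit. -/
theorem tendsto_iff {ι : Type*} {l : Filter ι} {f : ι → Profile} {g : Profile} :
    Tendsto f l (𝓝 g) ↔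
      ∀ t : ℝ≥0, 0 < t → ContinuousAt g.toFun t →
        Tendsto (fun i => (f i).toFun t) l (𝓝 (g.toFun t)) := by
  rw [TopologicalSpace.tendsto_nhds_generateFrom_iff]
  constructor
  · intro h t ht hc
    refine tendsto_order.mpr ⟨fun c hcg => ?_, fun c hcg => ?_⟩
    · -- lower
      have h1 : ∀ᶠ s in 𝓝[>] t, c < g.toFun s :=
        (hc.eventually (lt_mem_nhds hcg)).filter_mono nhdsWithin_le_nhds
      obtain ⟨s, hs1, hs2⟩ := (h1.and self_mem_nhdsWithin).exists
      obtain ⟨c', hc1, hc2⟩ := exists_rat_btwn hs1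
      obtain ⟨q, hq1, hq2⟩ := exists_rat_btwn (show (t : ℝ) < s from hs2)
      have hq0 : (0 : ℚ) ≤ q := by
        have : (0 : ℝ) ≤ q := t.2.trans hq1.le
        exact_mod_cast this
      have h2 : ∀ᶠ i in l, f i ∈ {f : Profile | ∃ u : ℝ≥0, (q : ℝ) < u ∧ (c' : ℝ) < f.toFun u} :=
        h _ ⟨q, c', hq0, Or.inr rfl⟩ ⟨s, hq2, hc2⟩
      refine h2.mono fun i hi => ?_
      obtain ⟨u, hu1, hu2⟩ := hi
      refine hc1.trans (hu2.trans_le ((f i).anti ?_))
      exact_mod_cast (hq1.trans hu1).le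
    · have h1 : ∀ᶠ s in 𝓝[<] t, g.toFun s < c :=
        (hc.eventually (gt_mem_nhds hcg)).filter_mono nhdsWithin_le_nhds
      have : (𝓝[<] t).NeBot := nhdsLT_neBot_of_exists_lt ⟨0, ht⟩
      obtain ⟨s, hs1, hs2⟩ := (h1.and self_mem_nhdsWithin).exists
      obtain ⟨c', hc1, hc2⟩ := exists_rat_btwn hs1
      obtain ⟨q, hq1, hq2⟩ := exists_rat_btwn (show (s : ℝ) < t from hs2)
      have hq0 : (0 : ℚ) ≤ q := by
        have : (0 : ℝ) ≤ q := s.2.trans hq1.le
        exact_mod_cast this
      have h2 : ∀ᶠ i in l, f i ∈ {f : Profile | ∃ u : ℝ≥0, (u : ℝ) < (q : ℝ) ∧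
          f.toFun u < (c' : ℝ)} := h _ ⟨q, c', hq0, Or.inl rfl⟩ ⟨s, hq1, hc1⟩
      refine h2.mono fun i hi => ?_
      obtain ⟨u, hu1, hu2⟩ := hi
      refine lt_of_le_of_lt ((f i).anti ?_) (hu2.trans hc2)
      exact_mod_cast (hu1.trans hq2).le
  · rintro h s ⟨q, c, hq, rfl | rfl⟩ ⟨u, hu1, hu2⟩
    · have hq' : u < Real.toNNReal q := by
        rw [← NNReal.coe_lt_coe, Real.coe_toNNReal _ (by exact_mod_cast hq)]; exact hu1
      obtain ⟨t, ht1, ht2, hct⟩ := exists_cont g.anti hq'
      have h1 := h t (lt_of_le_of_lt zero_le ht1) hct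
      have h2 : g.toFun t < c := lt_of_le_of_lt (g.anti ht1.le) hu2
      refine (h1.eventually (gt_mem_nhds h2)).mono fun i hi => ?_
      refine ⟨t, ?_, hi⟩
      rw [← NNReal.coe_lt_coe, Real.coe_toNNReal _ (by exact_mod_cast hq)] at ht2
      exact ht2
    · have hq' : Real.toNNReal q < u := by
        rw [← NNReal.coe_lt_coe, Real.coe_toNNReal _ (by exact_mod_cast hq)]; exact hu1
      obtain ⟨t, ht1, ht2, hct⟩ := exists_cont g.anti hq'
      have h1 := h t (lt_of_le_of_lt zero_le ht1) hct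
      have h2 : (c : ℝ) < g.toFun t := lt_of_lt_of_le hu2 (g.anti ht2.le)
      refine (h1.eventually (lt_mem_nhds h2)).mono fun i hi => ?_
      refine ⟨t, ?_, hi⟩
      rw [← NNReal.coe_lt_coe, Real.coe_toNNReal _ (by exact_mod_cast hq)] at ht1
      exact ht1

instance : T2Space Profile := by
  constructor
  have key : ∀ f g : Profile, ∀ t, f.toFun t < g.toFun t → ∃ u v : Set Profile, IsOpen u ∧
      IsOpen v ∧ f ∈ u ∧ g ∈ v ∧ Disjoint u v := by
    intro f g t h
    obtain ⟨c, hc1, hc2⟩ := exists_rat_btwn h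
    have h1 : ∀ᶠ s in 𝓝[>] t, (c : ℝ) < g.toFun s :=
      ((g.right t).mono Ioi_subset_Ici_self).eventually (lt_mem_nhds hc2)
    obtain ⟨s, hs1, hs2⟩ := (h1.and self_mem_nhdsWithin).exists
    obtain ⟨q, hq1, hq2⟩ := exists_rat_btwn (show (t : ℝ) < s from hs2)
    have hq0 : (0 : ℚ) ≤ q := by
      have : (0 : ℝ) ≤ q := t.2.trans hq1.le
      exact_mod_cast this
    refine ⟨{f | ∃ u : ℝ≥0, (u : ℝ) < (q : ℝ) ∧ f.toFun u < (c : ℝ)},
      {f | ∃ u : ℝ≥0, (q : ℝ) < u ∧ (c : ℝ) < f.toFun u},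
      TopologicalSpace.isOpen_generateFrom_of_mem ⟨q, c, hq0, Or.inl rfl⟩,
      TopologicalSpace.isOpen_generateFrom_of_mem ⟨q, c, hq0, Or.inr rfl⟩,
      ⟨t, hq1, hc1⟩, ⟨s, hq2, hs1⟩, ?_⟩
    rw [Set.disjoint_left]
    rintro φ ⟨u, hu1, hu2⟩ ⟨v, hv1, hv2⟩
    have huv : u ≤ v := by exact_mod_cast (hu1.trans hv1).le
    have := φ.anti huv
    linarith
  intro f g hfg
  have : ∃ t, f.toFun t ≠ g.toFun t := by
    by_contra hcon
    push Not at hcon
    exact hfg (Profile.ext' hcon)
  obtain ⟨t, ht⟩ := this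
  rcases lt_or_gt_of_ne ht with h | h
  · exact key f g t h
  · obtain ⟨u, v, hu, hv, h1, h2, h3⟩ := key g f t h
    exact ⟨v, u, hv, hu, h2, h1, h3.symm⟩

/-- nonincreasing functions with values in `[0,1]` -/
structure Dec (f : ℝ≥0 → ℝ) : Prop where
  anti : Antitone f
  nonneg : ∀ t, 0 ≤ f t
  le_one : ∀ t, f t ≤ 1

theorem Profile.dec (f : Profile) : Dec f.toFun := ⟨f.anti, f.nonneg, f.le_one⟩

theorem le_reg {f : ℝ≥0 → ℝ} (hf : Dec f) {t s : ℝ≥0} (h : t < s) :
    f s ≤ (reg f).toFun t := by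
  have := le_ciSup (bdd_clamp f t) ⟨s, h⟩
  rwa [clamp_eq (hf.nonneg s) (hf.le_one s)] at this

theorem reg_le {f : ℝ≥0 → ℝ} (hf : Dec f) (t : ℝ≥0) : (reg f).toFun t ≤ f t := by
  refine ciSup_le fun s => ?_
  rw [clamp_eq (hf.nonneg s) (hf.le_one s)]
  exact hf.anti s.2.le

theorem exists_of_lt_reg {f : ℝ≥0 → ℝ} (hf : Dec f) {t : ℝ≥0} {c : ℝ}
    (h : c < (reg f).toFun t) : ∃ s, t < s ∧ c < f s := by
  obtain ⟨s, hs⟩ := exists_lt_of_lt_ciSup h
  rw [clamp_eq (hf.nonneg s) (hf.le_one s)] at hs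
  exact ⟨s.1, s.2, hs⟩

theorem reg_self (f : Profile) : reg f.toFun = f := by
  apply Profile.ext'
  intro t
  apply le_antisymm (reg_le f.dec t)
  apply le_of_forall_lt
  intro c hc
  have h1 : ∀ᶠ s in 𝓝[>] t, c < f.toFun s :=
    ((f.right t).mono Ioi_subset_Ici_self).eventually (lt_mem_nhds hc)
  obtain ⟨s, hs1, hs2⟩ := (h1.and self_mem_nhdsWithin).exists
  exact hs1.trans_le (le_reg f.dec hs2)

/-- The regularisation agrees with the function at its continuity points. -/
theorem reg_eq_of_continuousAt {f : ℝ≥0 → ℝ} (hf : Dec f) {t : ℝ≥0} (h : ContinuousAt f t) :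
    (reg f).toFun t = f t := by
  apply le_antisymm (reg_le hf t)
  apply le_of_forall_lt
  intro c hc
  have h1 : ∀ᶠ s in 𝓝[>] t, c < f s :=
    (h.eventually (lt_mem_nhds hc)).filter_mono nhdsWithin_le_nhds
  obtain ⟨s, hs1, hs2⟩ := (h1.and self_mem_nhdsWithin).exists
  exact hs1.trans_le (le_reg hf hs2)

/-- At positive continuity points of the regularisation the original function has the same
value. -/
theorem eq_reg_of_continuousAt {f : ℝ≥0 → ℝ} (hf : Dec f) {t : ℝ≥0} (ht : 0 < t)
    (h : ContinuousAt (reg f).toFun t) : f t = (reg f).toFun t := by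
  refine le_antisymm ?_ (reg_le hf t)
  apply le_of_forall_gt
  intro c hc
  have h1 : ∀ᶠ s in 𝓝[<] t, (reg f).toFun s < c :=
    (h.eventually (gt_mem_nhds hc)).filter_mono nhdsWithin_le_nhds
  have : (𝓝[<] t).NeBot := nhdsLT_neBot_of_exists_lt ⟨0, ht⟩
  obtain ⟨s, hs1, hs2⟩ := (h1.and self_mem_nhdsWithin).exists
  exact (le_reg hf hs2).trans_lt hs1

/-- Pointwise convergence implies convergence of the regularisations. -/
theorem tendsto_reg {ι : Type*} {l : Filter ι} {f : ι → ℝ≥0 → ℝ} {g : ℝ≥0 → ℝ}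
    (hf : ∀ i, Dec (f i)) (hg : Dec g) (h : ∀ t, Tendsto (fun i => f i t) l (𝓝 (g t))) :
    Tendsto (fun i => reg (f i)) l (𝓝 (reg g)) := by
  rw [tendsto_iff]
  intro t ht hc
  have e := eq_reg_of_continuousAt hg ht hc
  refine tendsto_order.mpr ⟨fun c hcg => ?_, fun c hcg => ?_⟩
  · obtain ⟨s, hs1, hs2⟩ := exists_of_lt_reg hg hcg
    refine ((h s).eventually (lt_mem_nhds hs2)).mono fun i hi => ?_
    exact hi.trans_le (le_reg (hf i) hs1)
  · rw [← e] at hcg
    refine ((h t).eventually (gt_mem_nhds hcg)).mono fun i hi => ?_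
    exact (reg_le (hf i) t).trans_lt hi

instance : CompactSpace Profile := by
  constructor
  rw [isCompact_iff_ultrafilter_le_nhds]
  intro V _
  have hlim : ∀ t : ℝ≥0, ∃ a ∈ Icc (0 : ℝ) 1,
      Tendsto (fun f : Profile => f.toFun t) (V : Filter Profile) (𝓝 a) := by
    intro t
    have hK : IsCompact (Icc (0 : ℝ) 1) := isCompact_Icc
    have h1 : (V.map (fun f : Profile => f.toFun t) : Filter ℝ) ≤ 𝓟 (Icc (0 : ℝ) 1) := by
      rw [le_principal_iff]
      have h2 : (fun f : Profile => f.toFun t) ⁻¹' Icc (0 : ℝ) 1 ∈ (V : Filter Profile) :=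
        Filter.mem_of_superset univ_mem fun (f : Profile) _ => ⟨f.nonneg t, f.le_one t⟩
      exact h2
    obtain ⟨a, ha, hle⟩ := isCompact_iff_ultrafilter_le_nhds.mp hK _ h1
    exact ⟨a, ha, hle⟩
  choose g hg1 hg2 using hlim
  have hg : Dec g := by
    refine ⟨fun a b hab => ?_, fun t => (hg1 t).1, fun t => (hg1 t).2⟩
    exact le_of_tendsto_of_tendsto (hg2 b) (hg2 a) (Eventually.of_forall fun f => f.anti hab)
  refine ⟨reg g, mem_univ _, ?_⟩
  have h1 : Tendsto (fun f : Profile => reg f.toFun) (V : Filter Profile) (𝓝 (reg g)) :=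
    tendsto_reg (fun f => f.dec) hg hg2
  simp_rw [reg_self] at h1
  exact h1

instance : TopologicalSpace.MetrizableSpace Profile :=
  TopologicalSpace.metrizableSpace_of_t3_secondCountable Profile

/-- measurability of the regularisation -/
theorem measurable_reg {T : Type*} [MeasurableSpace T] (d : T → ℝ≥0 → ℝ)
    (hd : ∀ x, Dec (d x)) (hm : ∀ t, Measurable fun x => d x t) :
    Measurable fun x => reg (d x) := by
  apply measurable_of_subb
  · intro q c hq
    have e : {x | ∃ u : ℝ≥0, (u : ℝ) < (q : ℝ) ∧ (reg (d x)).toFun u < (c : ℝ)} =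
        ⋃ r : ℚ, ⋃ (_ : (0 ≤ r ∧ r < q)), {x | d x (Real.toNNReal r) < c} := by
      ext x
      simp only [mem_iUnion, exists_prop]
      constructor
      · rintro ⟨u, hu1, hu2⟩
        obtain ⟨r, hr1, hr2⟩ := exists_rat_btwn hu1
        have hr0 : (0 : ℝ) ≤ r := u.2.trans hr1.le
        refine ⟨r, ⟨by exact_mod_cast hr0, by exact_mod_cast hr2⟩, ?_⟩
        refine lt_of_le_of_lt (le_reg (hd x) ?_) hu2
        rw [← NNReal.coe_lt_coe, Real.coe_toNNReal _ hr0]; exact hr1
      · rintro ⟨r, ⟨hr0, hr1⟩, hr2⟩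
        refine ⟨Real.toNNReal r, ?_, lt_of_le_of_lt (reg_le (hd x) _) hr2⟩
        rw [Real.coe_toNNReal _ (by exact_mod_cast hr0)]; exact_mod_cast hr1
    rw [e]
    exact MeasurableSet.iUnion fun r => MeasurableSet.iUnion fun _ =>
      measurableSet_lt (hm _) measurable_const
  · intro q c hq
    have e : {x | ∃ u : ℝ≥0, (q : ℝ) < u ∧ (c : ℝ) < (reg (d x)).toFun u} =
        ⋃ r : ℚ, ⋃ (_ : q < r), {x | (c : ℝ) < d x (Real.toNNReal r)} := by
      ext x
      simp only [mem_iUnion, exists_prop]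
      constructor
      · rintro ⟨u, hu1, hu2⟩
        obtain ⟨s, hs1, hs2⟩ := exists_of_lt_reg (hd x) hu2
        obtain ⟨r, hr1, hr2⟩ := exists_rat_btwn (show (u : ℝ) < s from hs1)
        have hr0 : (0 : ℝ) ≤ r := u.2.trans hr1.le
        refine ⟨r, by exact_mod_cast hu1.trans hr1, ?_⟩
        refine lt_of_lt_of_le hs2 ((hd x).anti ?_)
        rw [← NNReal.coe_le_coe, Real.coe_toNNReal _ hr0]; exact hr2.le
      · rintro ⟨r, hr1, hr2⟩
        obtain ⟨u, hu1, hu2⟩ := exists_rat_btwn (show (q : ℝ) < r by exact_mod_cast hr1)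
        have hq' : (0 : ℝ) ≤ q := by exact_mod_cast hq
        have hu0 : (0 : ℝ) ≤ u := hq'.trans hu1.le
        have hr0 : (0 : ℝ) ≤ r := hu0.trans hu2.le
        refine ⟨Real.toNNReal u, ?_, lt_of_lt_of_le hr2 (le_reg (hd x) ?_)⟩
        · rw [Real.coe_toNNReal _ hu0]; exact hu1
        · rw [← NNReal.coe_lt_coe, Real.coe_toNNReal _ hu0, Real.coe_toNNReal _ hr0]; exact hu2
    rw [e]
    exact MeasurableSet.iUnion fun r => MeasurableSet.iUnion fun _ =>
      measurableSet_lt measurable_const (hm _)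

/-- The distance functions of a Markov process with a stationary distribution are
nonincreasing with values in `[0,1]`. -/
theorem dec_distFun {E : Type} [MeasurableSpace E] (T : TransitionFunction E) (π : Measure E)
    [IsProbabilityMeasure π] (hπ : ∀ t, π.bind (T.ker t) = π) (x : E) : Dec (distFun T π x) where
  anti := by
    intro s t hst
    obtain ⟨r, rfl⟩ := exists_add_of_le hst
    show tv (T.ker (s + r) x) π ≤ tv (T.ker s x) π
    have h1 := tv_bind_le (T.ker s x) π (T.ker r)
    rw [hπ] at h1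
    rw [T.add, Kernel.comp_apply]
    exact h1
  nonneg t := tv_nonneg _ _
  le_one t := tv_le_one _ _

/-- The profile agrees with the distance function at the continuity points of the latter. -/
theorem profile_eq {E : Type} [MeasurableSpace E] (T : TransitionFunction E) (π : Measure E)
    [IsProbabilityMeasure π] (hπ : ∀ t, π.bind (T.ker t) = π) (x : E) (t : ℝ≥0)
    (ht : ContinuousAt (distFun T π x) t) : (profile T π x).toFun t = distFun T π x t :=
  reg_eq_of_continuousAt (dec_distFun T π hπ x) ht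

section walkSection

variable {S : Type} [Fintype S] [MeasurableSpace S] [DiscreteMeasurableSpace S]

/-- composition of the first `k` maps -/
def walk (w : ℕ → S → S) : ℕ → S → S
  | 0, x => x
  | k + 1, x => w k (walk w k x)

theorem walk_congr {w w' : ℕ → S → S} {k : ℕ} (h : ∀ i < k, w i = w' i) (x : S) :
    walk w k x = walk w' k x := by
  induction k with
  | zero => rfl
  | succ k ih =>
    show w k (walk w k x) = w' k (walk w' k x)
    rw [ih fun i hi => h i (Nat.lt_succ_of_lt hi), h k (Nat.lt_succ_self k)]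

/-- the law of a sequence of independent random maps, with one-point laws given by `K` -/
def noise (K : S → Measure S) : Measure (ℕ → S → S) :=
  Measure.infinitePi (fun _ : ℕ => Measure.pi K)

/-- sets depending only on the first `k` maps -/
def Past (k : ℕ) (H : Set (ℕ → S → S)) : Prop :=
  ∀ w w' : ℕ → S → S, (∀ i < k, w i = w' i) → w ∈ H → w' ∈ H

theorem Past.mono {k l : ℕ} (h : k ≤ l) {H : Set (ℕ → S → S)} (hH : Past k H) : Past l H :=
  fun w w' hw => hH w w' fun i hi => hw i (hi.trans_le h)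

/-- restriction to the first `k` maps -/
def res (k : ℕ) (w : ℕ → S → S) : Finset.range k → S → S := fun i => w i

theorem Past.eq_preimage {k : ℕ} {H : Set (ℕ → S → S)} (hH : Past k H) :
    H = res k ⁻¹' (res k '' H) := by
  apply subset_antisymm (subset_preimage_image _ _)
  rintro w ⟨w', hw', he⟩
  refine hH w' w (fun i hi => ?_) hw'
  exact congrFun he ⟨i, Finset.mem_range.mpr hi⟩

theorem measurable_res (k : ℕ) : Measurable (res (S := S) k) :=
  measurable_pi_lambda _ fun _ => measurable_pi_apply _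

theorem Past.measurableSet {k : ℕ} {H : Set (ℕ → S → S)} (hH : Past k H) : MeasurableSet H := by
  rw [hH.eq_preimage]
  exact measurable_res k (MeasurableSet.of_discrete)

theorem past_walk (k : ℕ) (x : S) (B : Set S) : Past k {w : ℕ → S → S | walk w k x ∈ B} := by
  intro w w' h hw
  show walk w' k x ∈ B
  rw [← walk_congr h x]; exact hw

theorem measurable_walk (k : ℕ) (x : S) : Measurable fun w : ℕ → S → S => walk w k x :=
  fun B _ => (past_walk k x B).measurableSet

theorem Past.inter {k : ℕ} {H H' : Set (ℕ → S → S)} (h : Past k H) (h' : Past k H') :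
    Past k (H ∩ H') := fun w w' hw hm => ⟨h w w' hw hm.1, h' w w' hw hm.2⟩

variable (K : Kernel S S) [IsMarkovKernel K]

instance : IsProbabilityMeasure (noise (K : S → Measure S)) := by
  unfold noise; infer_instance

theorem noise_inter {k : ℕ} {H : Set (ℕ → S → S)} (hH : Past k H) (C : Set (S → S)) :
    noise K (H ∩ {w | w k ∈ C}) = noise K H * Measure.pi (K : S → Measure S) C := by
  have h1 : iIndepFun (fun i (w : ℕ → S → S) => w i) (noise (K : S → Measure S)) :=
    iIndepFun_infinitePi (X := fun _ m => m) fun _ => measurable_id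
  have h2 := h1.indepFun_finset (Finset.range k) {k} (by simp) (fun i => measurable_pi_apply i)
  have h3 := h2.measure_inter_preimage_eq_mul (res k '' H)
    {v : ({k} : Finset ℕ) → S → S | v ⟨k, Finset.mem_singleton_self k⟩ ∈ C}
    MeasurableSet.of_discrete MeasurableSet.of_discrete
  have e1 : (fun (a : ℕ → S → S) (i : Finset.range k) => a i) ⁻¹' (res k '' H) = H :=
    hH.eq_preimage.symm
  rw [e1] at h3
  have e2 : (fun (a : ℕ → S → S) (i : ({k} : Finset ℕ)) => a i) ⁻¹'
      {v : ({k} : Finset ℕ) → S → S | v ⟨k, Finset.mem_singleton_self k⟩ ∈ C} =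
      {w : ℕ → S → S | w k ∈ C} := rfl
  rw [e2] at h3
  rw [h3]
  congr 1
  have h4 : (noise (K : S → Measure S)).map (fun w => w k) = Measure.pi (K : S → Measure S) :=
    Measure.infinitePi_map_eval (fun _ : ℕ => Measure.pi (K : S → Measure S)) k
  rw [← h4, Measure.map_apply (measurable_pi_apply k) MeasurableSet.of_discrete]
  rfl

theorem pi_eval (z : S) (B : Set S) :
    Measure.pi (K : S → Measure S) {m | m z ∈ B} = K z B := by
  have h := (measurePreserving_eval (K : S → Measure S) z).measure_preimage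
    (MeasurableSet.of_discrete (s := B)).nullMeasurableSet
  exact h

/-- one step of the walk -/
theorem map_walk_succ {k : ℕ} {H : Set (ℕ → S → S)} (hH : Past k H) (x : S) :
    ((noise K).restrict H).map (fun w => walk w (k + 1) x) =
      K ∘ₘ (((noise K).restrict H).map (fun w => walk w k x)) := by
  classical
  ext B hB
  rw [Measure.map_apply (measurable_walk _ _) hB, Measure.bind_apply hB K.aemeasurable,
    lintegral_map (K.measurable_coe hB) (measurable_walk _ _),
    Measure.restrict_apply ((measurable_walk _ _) hB)]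
  have e1 : (fun w : ℕ → S → S => walk w (k + 1) x) ⁻¹' B ∩ H =
      ⋃ z ∈ (Finset.univ : Finset S),
        ((H ∩ {w | walk w k x ∈ ({z} : Set S)}) ∩ {w : ℕ → S → S | w k ∈ {m : S → S | m z ∈ B}}) := by
    ext w
    simp only [mem_inter_iff, mem_preimage, mem_iUnion, Finset.mem_univ, exists_true_left,
      mem_singleton_iff]
    constructor
    · rintro ⟨h1, h2⟩
      exact ⟨walk w k x, ⟨h2, rfl⟩, h1⟩
    · rintro ⟨z, ⟨h2, h3⟩, h4⟩
      refine ⟨?_, h2⟩
      show w k (walk w k x) ∈ B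
      have h3' : walk w k x = z := h3
      rw [h3']; exact h4
  rw [e1, measure_biUnion_finset]
  · have e2 : ∀ w : ℕ → S → S, K (walk w k x) B =
        ∑ z, ({w | walk w k x ∈ ({z} : Set S)} : Set (ℕ → S → S)).indicator (fun _ => K z B) w := by
      intro w
      rw [Finset.sum_eq_single (walk w k x)]
      · exact (indicator_of_mem (s := {w' : ℕ → S → S | walk w' k x ∈ ({walk w k x} : Set S)})
          (a := w) rfl (fun _ => K (walk w k x) B)).symm
      · intro z _ hz
        rw [indicator_of_notMem]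
        intro h
        exact hz (show walk w k x = z from h).symm
      · intro h; exact absurd (Finset.mem_univ _) h
    simp_rw [e2]
    rw [lintegral_finsetSum]
    · refine Finset.sum_congr rfl fun z _ => ?_
      rw [noise_inter K (hH.inter (past_walk k x {z})), pi_eval,
        lintegral_indicator_const (past_walk k x {z}).measurableSet,
        Measure.restrict_apply (past_walk k x {z}).measurableSet, inter_comm H, mul_comm]
    · intro z _
      exact measurable_const.indicator (past_walk k x {z}).measurableSet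
  · intro z _ z' _ hzz
    refine Disjoint.mono (inter_subset_left.trans inter_subset_right)
      (inter_subset_left.trans inter_subset_right) ?_
    rw [Set.disjoint_left]
    intro w h1 h2
    exact hzz ((show walk w k x = z from h1).symm.trans h2)
  · intro z _
    refine MeasurableSet.inter (hH.inter (past_walk k x {z})).measurableSet ?_
    exact (measurable_pi_apply k) MeasurableSet.of_discrete


end walkSection

/-! ### finite chains -/

section finite

variable {S : Type} [Fintype S] [MeasurableSpace S] [DiscreteMeasurableSpace S]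
  (T : TransitionFunction S)

/-- on time scale `δ` the chain moves with probability at most `ε` -/
def Fine (δ : ℝ≥0) (ε : ℝ≥0∞) : Prop := ∀ r ≤ δ, ∀ y, 1 ≤ T.ker r y {y} + ε

theorem exists_fine (hc : ∀ x, Tendsto (fun t => T.ker t x {x}) (𝓝[>] 0) (𝓝 1)) {ε : ℝ≥0∞}
    (hε : 0 < ε) : ∃ δ : ℝ≥0, 0 < δ ∧ Fine T δ ε := by
  have h1 : ∀ x, ∀ᶠ t in 𝓝[>] (0 : ℝ≥0), 1 ≤ T.ker t x {x} + ε := by
    intro x
    have h2 : Tendsto (fun t => T.ker t x {x} + ε) (𝓝[>] 0) (𝓝 (1 + ε)) :=
      (hc x).add tendsto_const_nhds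
    have h3 : (1 : ℝ≥0∞) < 1 + ε := ENNReal.lt_add_right ENNReal.one_ne_top hε.ne'
    exact (h2.eventually (lt_mem_nhds h3)).mono fun t ht => ht.le
  have h2 : ∀ᶠ t in 𝓝[>] (0 : ℝ≥0), ∀ x, 1 ≤ T.ker t x {x} + ε := eventually_all.mpr h1
  rw [eventually_nhdsWithin_iff, Metric.eventually_nhds_iff] at h2
  obtain ⟨δ, hδ, h3⟩ := h2
  refine ⟨Real.toNNReal (δ / 2), by simpa using hδ, fun r hr y => ?_⟩
  rcases eq_or_lt_of_le (zero_le : 0 ≤ r) with h0 | h0
  · rw [← h0, T.zero, Kernel.id_apply, Measure.dirac_apply_of_mem (mem_singleton y)]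
    exact le_self_add
  · refine h3 ?_ h0 y
    rw [NNReal.dist_eq, NNReal.coe_zero, sub_zero, abs_of_nonneg (NNReal.coe_nonneg r)]
    have : (r : ℝ) ≤ δ / 2 := by
      have := NNReal.coe_le_coe.mpr hr
      rwa [Real.coe_toNNReal _ (by positivity)] at this
    linarith

variable {T}

theorem Fine.upper {δ : ℝ≥0} {ε : ℝ≥0∞} (h : Fine T δ ε) {r : ℝ≥0} (hr : r ≤ δ) (z : S)
    (B : Set S) : T.ker r z B ≤ B.indicator (fun _ => 1) z + ε := by
  by_cases hz : z ∈ B
  · rw [indicator_of_mem hz]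
    exact prob_le_one.trans le_self_add
  · rw [indicator_of_notMem hz, zero_add]
    have h1 : T.ker r z B ≤ T.ker r z {z}ᶜ :=
      measure_mono fun y hy hyz => hz (by rw [← (show y = z from hyz)]; exact hy)
    refine h1.trans ?_
    rw [prob_compl_eq_one_sub (MeasurableSet.of_discrete)]
    rw [tsub_le_iff_left]
    exact h r hr z

theorem Fine.lower {δ : ℝ≥0} {ε : ℝ≥0∞} (h : Fine T δ ε) {r : ℝ≥0} (hr : r ≤ δ) (z : S)
    (B : Set S) : B.indicator (fun _ => 1) z ≤ T.ker r z B + ε := by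
  by_cases hz : z ∈ B
  · rw [indicator_of_mem hz]
    refine (h r hr z).trans (add_le_add (measure_mono ?_) le_rfl)
    rintro _ rfl
    exact hz
  · rw [indicator_of_notMem hz]; exact zero_le

theorem Fine.near {δ : ℝ≥0} {ε : ℝ≥0∞} (h : Fine T δ ε) {r : ℝ≥0} (hr : r ≤ δ) (s : ℝ≥0) (z : S)
    (B : Set S) : T.ker (s + r) z B ≤ T.ker s z B + ε ∧ T.ker s z B ≤ T.ker (s + r) z B + ε := by
  have hB : MeasurableSet B := MeasurableSet.of_discrete
  have e1 : T.ker s z B = ∫⁻ y, B.indicator (fun _ => 1) y ∂(T.ker s z) := by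
    rw [lintegral_indicator_const hB, one_mul]
  have e2 : ∀ f : S → ℝ≥0∞, ∫⁻ y, (f y + ε) ∂(T.ker s z) = ∫⁻ y, f y ∂(T.ker s z) + ε := by
    intro f
    rw [lintegral_add_right _ measurable_const]; simp
  rw [T.add, Kernel.comp_apply' _ _ _ hB]
  constructor
  · rw [e1, ← e2]
    exact lintegral_mono fun y => h.upper hr y B
  · rw [e1, ← e2]
    exact lintegral_mono fun y => h.lower hr y B

theorem Fine.near' {δ : ℝ≥0} {ε : ℝ≥0∞} (h : Fine T δ ε) {s s' : ℝ≥0} (h1 : s ≤ s' + δ)
    (h2 : s' ≤ s + δ) (z : S) (B : Set S) : T.ker s z B ≤ T.ker s' z B + ε := by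
  rcases le_total s s' with h3 | h3
  · obtain ⟨r, rfl⟩ := exists_add_of_le h3
    exact (h.near (le_of_add_le_add_left h2) s z B).2
  · obtain ⟨r, rfl⟩ := exists_add_of_le h3
    exact (h.near (le_of_add_le_add_left h1) s' z B).1

variable (T)

theorem markov_walk (δ : ℝ≥0) {k : ℕ} {H : Set (ℕ → S → S)} (hH : Past k H) (x : S) (m : ℕ) :
    ((noise (T.ker δ)).restrict H).map (fun w => walk w (k + m) x) =
      T.ker (m * δ) ∘ₘ (((noise (T.ker δ)).restrict H).map (fun w => walk w k x)) := by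
  induction m with
  | zero =>
    simp [T.zero]
  | succ m ih =>
    have h1 := map_walk_succ (T.ker δ) (hH.mono (Nat.le_add_right k m)) x
    have e : ((m + 1 : ℕ) : ℝ≥0) * δ = m * δ + δ := by push_cast; ring
    rw [← add_assoc, h1, ih, Measure.comp_assoc, ← T.add, e]

theorem markov_walk' (δ : ℝ≥0) {k : ℕ} {H : Set (ℕ → S → S)} (hH : Past k H) (x : S) (m : ℕ)
    (B : Set S) :
    noise (T.ker δ) (H ∩ {w | walk w (k + m) x ∈ B}) =
      ∫⁻ w in H, T.ker (m * δ) (walk w k x) B ∂(noise (T.ker δ)) := by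
  have hB : MeasurableSet B := MeasurableSet.of_discrete
  have h1 : ((noise (T.ker δ)).restrict H).map (fun w => walk w (k + m) x) B =
      (T.ker (m * δ) ∘ₘ (((noise (T.ker δ)).restrict H).map (fun w => walk w k x))) B := by
    rw [markov_walk T δ hH x m]
  rw [Measure.map_apply (measurable_walk _ _) hB, Measure.bind_apply hB (T.ker _).aemeasurable,
    lintegral_map ((T.ker _).measurable_coe hB) (measurable_walk _ _),
    Measure.restrict_apply ((measurable_walk _ _) hB)] at h1
  rw [inter_comm]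
  exact h1

end finite

section ultraSection

variable {U : Ultrafilter ℕ} {S : ℕ → Type} [∀ n, Fintype (S n)] [∀ n, MeasurableSpace (S n)]
  [∀ n, DiscreteMeasurableSpace (S n)] [∀ n, Nonempty (S n)]
  (hU : (U : Filter ℕ) ≤ atTop) (T : ∀ n, TransitionFunction (S n))

/-- The ultraproduct kernels. -/
def uker (t : ℝ≥0) : Kernel (Ult U S) (Ult U S) where
  toFun x := loeb hU (fun n => (T n).ker t (x n))
  measurable' := by
    have inst : ∀ (x : Ult U S) (n : ℕ), IsProbabilityMeasure ((T n).ker t (x n)) :=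
      fun x n => ((T n).markov t).isProbabilityMeasure (x n)
    refine measurable_loeb_apply hU (fun (x : Ult U S) n => (T n).ker t (x n)) fun A hA => ?_
    exact measurable_lift (U := U) (fun n y => (T n).ker t y (A n))
      (fun n => Kernel.measurable_coe _ (hA n))

theorem uker_apply (t : ℝ≥0) (x : Ult U S) :
    uker hU T t x = loeb hU (fun n => (T n).ker t (x n)) := rfl

instance (t : ℝ≥0) : IsMarkovKernel (uker hU T t) := ⟨fun x => by
  have inst : ∀ (n : ℕ), IsProbabilityMeasure ((T n).ker t (x n)) :=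
      fun n => ((T n).markov t).isProbabilityMeasure (x n)
  rw [uker_apply]; exact loeb_prob hU _⟩

theorem uker_intl (t : ℝ≥0) (x : Ult U S) (A : ∀ n, Set (S n)) :
    uker hU T t x (intl U A) = ulim U (fun n => (T n).ker t (x n) (A n)) := by
  rw [uker_apply, loeb_intl hU _ fun n => MeasurableSet.of_discrete]

theorem loeb_bind (μ : ∀ n, Measure (S n)) [∀ n, IsProbabilityMeasure (μ n)] (t : ℝ≥0) :
    (loeb hU μ).bind (uker hU T t) = loeb hU (fun n => (μ n).bind ((T n).ker t)) := by
  apply ext_intl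
  intro A hA
  rw [Measure.bind_apply (measurableSet_intl hA) (uker hU T t).aemeasurable, loeb_intl hU _ hA]
  have e : ∀ x : Ult U S, uker hU T t x (intl U A) =
      lift U (fun n y => (T n).ker t y (A n)) x := fun x => uker_intl hU T t x A
  simp_rw [e]
  rw [lintegral_lift hU μ (fun n y => (T n).ker t y (A n))
    (fun n => Kernel.measurable_coe _ (hA n)) 1 (fun n y => by simpa using prob_le_one)]
  congr 1
  ext n
  rw [Measure.bind_apply (hA n) ((T n).ker t).aemeasurable]

theorem loeb_dirac (x : Ult U S) : loeb hU (fun n => Measure.dirac (x n)) = Measure.dirac x := by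
  have inst : ∀ (n : ℕ), IsProbabilityMeasure (Measure.dirac (x n)) :=
      fun n => Measure.dirac.isProbabilityMeasure
  have inst2 : IsProbabilityMeasure (loeb hU (fun n => Measure.dirac (x n))) := loeb_prob hU _
  apply ext_intl
  intro A hA
  rw [loeb_intl hU _ hA, Measure.dirac_apply' _ (measurableSet_intl hA)]
  have e := indicator_intl (U := U) A x 1
  have e1 : (intl U A).indicator (1 : Ult U S → ℝ≥0∞) x =
    (intl U A).indicator (fun _ => 1) x := rfl
  rw [e1, e]
  congr 1
  ext n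
  rw [Measure.dirac_apply' _ (hA n)]
  rfl

/-- The ultraproduct transition function. -/
def uT : TransitionFunction (Ult U S) where
  ker := uker hU T
  markov t := inferInstance
  zero := by
    ext1 x
    rw [uker_apply, Kernel.id_apply, ← loeb_dirac hU x]
    congr 1
    ext1 n
    rw [(T n).zero, Kernel.id_apply]
  add s t := by
    ext1 x
    have inst : ∀ (n : ℕ), IsProbabilityMeasure ((T n).ker s (x n)) :=
      fun n => ((T n).markov s).isProbabilityMeasure (x n)
    rw [Kernel.comp_apply, uker_apply, uker_apply, loeb_bind hU T]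
    congr 1
    ext1 n
    rw [(T n).add, Kernel.comp_apply]

/-! ### cylinder sets -/

/-- cylinder sets with internal components and times in `I` -/
def cyl (U : Ultrafilter ℕ) (S : ℕ → Type) (I : Set ℝ≥0) : Set (Set (ℝ≥0 → Ult U S)) :=
  {H | ∃ (F : Finset ℝ≥0) (A : ℝ≥0 → ∀ n, Set (S n)), (↑F ⊆ I) ∧
    H = {ω | ∀ u ∈ F, ω u ∈ intl U (A u)}}

theorem isPiSystem_cyl (I : Set ℝ≥0) : IsPiSystem (cyl U S I) := by
  classical
  rintro _ ⟨F, A, hF, rfl⟩ _ ⟨F', A', hF', rfl⟩ _
  refine ⟨F ∪ F', fun u n => (if u ∈ F then A u n else univ) ∩ (if u ∈ F' then A' u n else univ),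
    ?_, ?_⟩
  · intro u hu
    rcases Finset.mem_union.mp (Finset.mem_coe.mp hu) with h | h
    · exact hF h
    · exact hF' h
  · ext ω
    simp only [mem_inter_iff, mem_ofPred_eq, Finset.mem_union]
    constructor
    · rintro ⟨h1, h2⟩ u _
      rw [← intl_inter]
      constructor
      · by_cases h : u ∈ F
        · simp only [h, if_true]; exact h1 u h
        · simp only [h, if_false]; rw [intl_univ]; exact mem_univ _
      · by_cases h : u ∈ F'
        · simp only [h, if_true]; exact h2 u h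
        · simp only [h, if_false]; rw [intl_univ]; exact mem_univ _
    · intro h
      constructor
      · intro u hu
        have := h u (Or.inl hu)
        rw [← intl_inter] at this
        have h2 := this.1
        simpa only [hu, if_true] using h2
      · intro u hu
        have := h u (Or.inr hu)
        rw [← intl_inter] at this
        have h2 := this.2
        simpa only [hu, if_true] using h2

theorem generateFrom_cyl (I : Set ℝ≥0) :
    (⨆ u ∈ I, MeasurableSpace.comap (fun ω : ℝ≥0 → Ult U S => ω u) inferInstance) =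
      MeasurableSpace.generateFrom (cyl U S I) := by
  classical
  apply le_antisymm
  · refine iSup₂_le fun u hu => ?_
    have e : (inferInstance : MeasurableSpace (Ult U S)) =
      MeasurableSpace.generateFrom (intSets U S) := rfl
    rw [e, MeasurableSpace.comap_generateFrom]
    apply MeasurableSpace.generateFrom_mono
    rintro _ ⟨_, ⟨A, hA, rfl⟩, rfl⟩
    refine ⟨{u}, fun _ => A, by simpa using hu, ?_⟩
    ext ω
    simp
  · apply MeasurableSpace.generateFrom_le
    rintro _ ⟨F, A, hF, rfl⟩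
    have e : {ω : ℝ≥0 → Ult U S | ∀ u ∈ F, ω u ∈ intl U (A u)} =
        ⋂ u ∈ F, (fun ω : ℝ≥0 → Ult U S => ω u) ⁻¹' (intl U (A u)) := by
      ext ω; simp
    rw [e]
    refine Finset.measurableSet_biInter F fun u hu => ?_
    have h1 : MeasurableSpace.comap (fun ω : ℝ≥0 → Ult U S => ω u) inferInstance ≤
      (⨆ u ∈ I, MeasurableSpace.comap (fun ω : ℝ≥0 → Ult U S => ω u) inferInstance) :=
      le_iSup₂_of_le u (hF hu) le_rfl
    exact h1 _ ⟨_, measurableSet_intl fun n => MeasurableSet.of_discrete, rfl⟩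

theorem pi_eq_generateFrom_cyl :
    (MeasurableSpace.pi : MeasurableSpace (ℝ≥0 → Ult U S)) =
      MeasurableSpace.generateFrom (cyl U S univ) := by
  rw [← generateFrom_cyl]
  simp only [mem_univ, iSup_pos]
  rfl

theorem univ_mem_cyl (I : Set ℝ≥0) : (univ : Set (ℝ≥0 → Ult U S)) ∈ cyl U S I :=
  ⟨∅, fun _ _ => univ, by simp, by simp⟩

/-! ### the process -/

/-- the noise spaces -/
abbrev NS (S : ℕ → Type) : ℕ → Type := fun n => ℕ → S n → S n

/-- the position at time `t` of the process started at `x` driven by `w` -/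
def upos (δ : ℕ → ℝ≥0) (x : Ult U S) (w : Ult U (NS S)) (t : ℝ≥0) : Ult U S :=
  fun n => walk (w n) ⌊t / δ n⌋₊ (x n)

/-- internal event on the noise space corresponding to a cylinder set -/
def evt (δ : ℕ → ℝ≥0) (F : Finset ℝ≥0) (A : ℝ≥0 → ∀ n, Set (S n)) (n : ℕ) (y : S n) :
    Set (ℕ → S n → S n) := {w | ∀ u ∈ F, walk w ⌊u / δ n⌋₊ y ∈ A u n}

theorem past_evt (δ : ℕ → ℝ≥0) (F : Finset ℝ≥0) (A : ℝ≥0 → ∀ n, Set (S n)) (n : ℕ) (y : S n)
    (k : ℕ) (hk : ∀ u ∈ F, ⌊u / δ n⌋₊ ≤ k) : Past k (evt δ F A n y) := by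
  intro w w' h hw u hu
  exact ((past_walk _ y (A u n)).mono (hk u hu)) w w' h (hw u hu)

theorem measurable_evt (δ : ℕ → ℝ≥0) (F : Finset ℝ≥0) (A : ℝ≥0 → ∀ n, Set (S n)) (n : ℕ)
    (y : S n) : MeasurableSet (evt δ F A n y) := by
  apply (past_evt δ F A n y (F.sup fun u => ⌊u / δ n⌋₊) ?_).measurableSet
  intro u hu
  exact Finset.le_sup (f := fun u => ⌊u / δ n⌋₊) hu

theorem preimage_cyl (δ : ℕ → ℝ≥0) (x : Ult U S) (F : Finset ℝ≥0) (A : ℝ≥0 → ∀ n, Set (S n)) :
    upos δ x ⁻¹' {ω | ∀ u ∈ F, ω u ∈ intl U (A u)} = intl U (fun n => evt δ F A n (x n)) := by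
  ext w
  simp only [mem_preimage, mem_ofPred_eq]
  rw [mem_intl]
  exact (Filter.eventually_all_finset F).symm

theorem measurable_upos (δ : ℕ → ℝ≥0) (x : Ult U S) : Measurable (upos (U := U) δ x) := by
  rw [pi_eq_generateFrom_cyl]
  apply measurable_generateFrom
  rintro _ ⟨F, A, _, rfl⟩
  rw [preimage_cyl]
  exact measurableSet_intl fun n => measurable_evt δ F A n (x n)

/-- law of the noise -/
def unoise (δ : ℕ → ℝ≥0) : Measure (Ult U (NS S)) :=
  loeb hU (fun n => noise ((T n).ker (δ n)))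

instance (δ : ℕ → ℝ≥0) : IsProbabilityMeasure (unoise hU T δ) := by
  unfold unoise; infer_instance

/-- law of the process started at `x`. -/
def ulaw (δ : ℕ → ℝ≥0) : Kernel (Ult U S) (ℝ≥0 → Ult U S) where
  toFun x := (unoise hU T δ).map (upos δ x)
  measurable' := by
    have : ∀ x : Ult U S, IsProbabilityMeasure ((unoise hU T δ).map (upos δ x)) := fun x =>
      Measure.isProbabilityMeasure_map (measurable_upos δ x).aemeasurable
    apply Measurable.measure_of_isPiSystem_of_isProbabilityMeasure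
      pi_eq_generateFrom_cyl (isPiSystem_cyl univ)
    rintro _ ⟨F, A, _, rfl⟩
    have hm : MeasurableSet {ω : ℝ≥0 → Ult U S | ∀ u ∈ F, ω u ∈ intl U (A u)} := by
      rw [pi_eq_generateFrom_cyl]
      exact MeasurableSpace.measurableSet_generateFrom ⟨F, A, subset_univ _, rfl⟩
    have e : ∀ x : Ult U S, (unoise hU T δ).map (upos δ x)
        {ω : ℝ≥0 → Ult U S | ∀ u ∈ F, ω u ∈ intl U (A u)} =
        lift U (fun n y => noise ((T n).ker (δ n)) (evt δ F A n y)) x := by
      intro x
      rw [Measure.map_apply (measurable_upos δ x) hm, preimage_cyl, unoise,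
        loeb_intl hU _ fun n => measurable_evt δ F A n (x n)]
      rfl
    simp_rw [e]
    exact measurable_lift _ fun n => measurable_of_finite _

theorem ulaw_apply (δ : ℕ → ℝ≥0) (x : Ult U S) :
    ulaw hU T δ x = (unoise hU T δ).map (upos δ x) := rfl

instance (δ : ℕ → ℝ≥0) : IsMarkovKernel (ulaw hU T δ) := ⟨fun x => by
  rw [ulaw_apply]; exact Measure.isProbabilityMeasure_map (measurable_upos δ x).aemeasurable⟩

theorem ulaw_start (δ : ℕ → ℝ≥0) (x : Ult U S) :
    (ulaw hU T δ x).map (fun ω => ω 0) = Measure.dirac x := by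
  rw [ulaw_apply, Measure.map_map (measurable_pi_apply 0) (measurable_upos δ x)]
  have e : (fun ω : ℝ≥0 → Ult U S => ω 0) ∘ upos δ x = fun _ => x := by
    ext w
    show upos δ x w 0 = x
    funext n
    show walk (w n) ⌊0 / δ n⌋₊ (x n) = x n
    simp [walk]
  rw [e, Measure.map_const]
  simp

theorem indicator_mul_intl {R : ℕ → Type} (A : ∀ n, Set (R n)) (w : Ult U R)
    (f : ∀ n, R n → ℝ≥0∞) :
    (intl U A).indicator (lift U f) w = ulim U (fun n => (A n).indicator (f n) (w n)) := by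
  classical
  by_cases h : w ∈ intl U A
  · rw [indicator_of_mem h]
    apply ulim_congr
    exact (mem_intl.mp h).mono fun n hn => (indicator_of_mem hn (f n)).symm
  · rw [indicator_of_notMem h]
    have h2 : w ∈ intl U (fun n => (A n)ᶜ) := by rw [← intl_compl]; exact h
    symm
    apply ulim_eq
    apply tendsto_const_nhds.congr'
    exact (mem_intl.mp h2).mono fun n hn => (indicator_of_notMem hn (f n)).symm

theorem floor_close {δ s t : ℝ≥0} (hδ : 0 < δ) :
    ((⌊(s + t) / δ⌋₊ - ⌊s / δ⌋₊ : ℕ) : ℝ≥0) * δ ≤ t + δ ∧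
      t ≤ ((⌊(s + t) / δ⌋₊ - ⌊s / δ⌋₊ : ℕ) : ℝ≥0) * δ + δ := by
  have h0 : s / δ ≤ (s + t) / δ := by gcongr; exact le_self_add
  have h1 : ⌊s / δ⌋₊ ≤ ⌊(s + t) / δ⌋₊ := Nat.floor_mono h0
  have h2 := Nat.floor_le (zero_le : 0 ≤ s / δ)
  have h3 := Nat.floor_le (zero_le : 0 ≤ (s + t) / δ)
  have h4 := Nat.lt_floor_add_one (s / δ)
  have h5 := Nat.lt_floor_add_one ((s + t) / δ)
  rw [le_div_iff₀ hδ] at h2 h3
  rw [div_lt_iff₀ hδ] at h4 h5
  obtain ⟨m, hm⟩ := Nat.exists_eq_add_of_le h1
  have hm' : ⌊(s + t) / δ⌋₊ - ⌊s / δ⌋₊ = m := by omega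
  rw [hm']
  rw [hm] at h3 h5
  rw [← NNReal.coe_le_coe, ← NNReal.coe_le_coe]
  rw [← NNReal.coe_le_coe] at h2 h3
  rw [← NNReal.coe_lt_coe] at h4 h5
  push_cast at *
  constructor <;> nlinarith

/-- the Markov property on internal cylinder sets -/
theorem umarkov_intl (δ : ℕ → ℝ≥0) (hδ0 : ∀ n, 0 < δ n)
    (hδ : ∀ n, Fine (T n) (δ n) (((n : ℝ≥0∞) + 1)⁻¹)) (x : Ult U S) (s t : ℝ≥0)
    {H : Set (ℝ≥0 → Ult U S)} (hH : H ∈ cyl U S (Iic s)) (B : ∀ n, Set (S n)) :
    ulaw hU T δ x (H ∩ {ω | ω (s + t) ∈ intl U B}) =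
      ∫⁻ ω in H, uker hU T t (ω s) (intl U B) ∂(ulaw hU T δ x) := by
  classical
  have hHm : MeasurableSet H := by
    obtain ⟨F, A, hF, rfl⟩ := hH
    rw [pi_eq_generateFrom_cyl]
    exact MeasurableSpace.measurableSet_generateFrom ⟨F, A, subset_univ _, rfl⟩
  have hBm : MeasurableSet (intl U B) := measurableSet_intl fun n => MeasurableSet.of_discrete
  have hBm' : MeasurableSet {ω : ℝ≥0 → Ult U S | ω (s + t) ∈ intl U B} :=
    (measurable_pi_apply (s + t)) hBm
  have hgm : Measurable fun ω : ℝ≥0 → Ult U S => uker hU T t (ω s) (intl U B) :=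
    (Kernel.measurable_coe _ hBm).comp (measurable_pi_apply s)
  obtain ⟨F, A, hF, rfl⟩ := hH
  rw [ulaw_apply, Measure.map_apply (measurable_upos δ x) (hHm.inter hBm'),
    setLIntegral_map hHm hgm (measurable_upos δ x), preimage_inter, preimage_cyl]
  -- floor indices
  let ks : ℕ → ℕ := fun n => ⌊s / δ n⌋₊
  let kst : ℕ → ℕ := fun n => ⌊(s + t) / δ n⌋₊
  have hks : ∀ n, ks n ≤ kst n := fun n => by
    apply Nat.floor_mono
    gcongr
    exact le_self_add
  have hpast : ∀ n, Past (ks n) (evt δ F A n (x n)) := by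
    intro n
    apply past_evt
    intro u hu
    apply Nat.floor_mono
    have : u ≤ s := hF hu
    gcongr
  have hpB : ∀ n, Past (kst n) {w : ℕ → S n → S n | walk w (kst n) (x n) ∈ B n} := fun n =>
    past_walk _ _ _
  have e1 : upos δ x ⁻¹' {ω : ℝ≥0 → Ult U S | ω (s + t) ∈ intl U B} =
      intl U (fun n => {w : ℕ → S n → S n | walk w (kst n) (x n) ∈ B n}) := rfl
  rw [e1, intl_inter, unoise, loeb_intl hU _ fun n => (hpast n).measurableSet.inter
    (hpB n).measurableSet]
  have hHm2 : MeasurableSet (intl U (fun n => evt δ F A n (x n))) :=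
    measurableSet_intl fun n => measurable_evt δ F A n (x n)
  rw [← lintegral_indicator hHm2]
  let f : ∀ n, (ℕ → S n → S n) → ℝ≥0∞ := fun n w => (T n).ker t (walk w (ks n) (x n)) (B n)
  have hf : ∀ n, Measurable (f n) := fun n =>
    (Kernel.measurable_coe _ MeasurableSet.of_discrete).comp (measurable_walk _ _)
  have e2 : ∀ w : Ult U (NS S), uker hU T t (upos δ x w s) (intl U B) = lift U f w := by
    intro w
    rw [uker_intl]
    rfl
  have e3 : ∀ w : Ult U (NS S), (intl U (fun n => evt δ F A n (x n))).indicator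
      (fun w => uker hU T t (upos δ x w s) (intl U B)) w =
      lift U (fun n => (evt δ F A n (x n)).indicator (f n)) w := by
    intro w
    have e4 : (fun w : Ult U (NS S) => uker hU T t (upos δ x w s) (intl U B)) = lift U f :=
      funext e2
    rw [e4, indicator_mul_intl]
    rfl
  simp_rw [e3]
  rw [lintegral_lift hU _ _ (fun n => (hf n).indicator (measurable_evt δ F A n (x n))) 1
    (fun n w => by
      by_cases h : w ∈ evt δ F A n (x n)
      · rw [indicator_of_mem h]; simpa using prob_le_one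
      · rw [indicator_of_notMem h]; exact zero_le)]
  -- compare the two sequences
  let a : ℕ → ℝ≥0∞ := fun n => noise ((T n).ker (δ n))
    (evt δ F A n (x n) ∩ {w : ℕ → S n → S n | walk w (kst n) (x n) ∈ B n})
  let b : ℕ → ℝ≥0∞ := fun n => ∫⁻ w, (evt δ F A n (x n)).indicator (f n) w
    ∂(noise ((T n).ker (δ n)))
  let m : ℕ → ℕ := fun n => kst n - ks n
  have ha : ∀ n, a n = ∫⁻ w in evt δ F A n (x n),
      (T n).ker (m n * δ n) (walk w (ks n) (x n)) (B n) ∂(noise ((T n).ker (δ n))) := by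
    intro n
    have h1 := markov_walk' (T n) (δ n) (hpast n) (x n) (m n) (B n)
    have h2 : ks n + m n = kst n := Nat.add_sub_cancel' (hks n)
    rw [h2] at h1
    exact h1
  have hb : ∀ n, b n = ∫⁻ w in evt δ F A n (x n),
      (T n).ker t (walk w (ks n) (x n)) (B n) ∂(noise ((T n).ker (δ n))) := by
    intro n
    show ∫⁻ w, (evt δ F A n (x n)).indicator (f n) w ∂(noise ((T n).ker (δ n))) = _
    rw [lintegral_indicator (measurable_evt δ F A n (x n))]
  have hint : ∀ n (g : (ℕ → S n → S n) → ℝ≥0∞),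
      ∫⁻ w in evt δ F A n (x n), (g w + ((n : ℝ≥0∞) + 1)⁻¹) ∂(noise ((T n).ker (δ n))) ≤
      ∫⁻ w in evt δ F A n (x n), g w ∂(noise ((T n).ker (δ n))) + ((n : ℝ≥0∞) + 1)⁻¹ := by
    intro n g
    rw [lintegral_add_right _ measurable_const, lintegral_const]
    gcongr
    calc ((n : ℝ≥0∞) + 1)⁻¹ * (noise ((T n).ker (δ n))).restrict (evt δ F A n (x n)) univ
        ≤ ((n : ℝ≥0∞) + 1)⁻¹ * 1 := by
          gcongr
          rw [Measure.restrict_apply_univ]
          exact prob_le_one
      _ = _ := mul_one _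
  have hclose : ∀ n, (m n : ℝ≥0) * δ n ≤ t + δ n ∧ t ≤ (m n : ℝ≥0) * δ n + δ n := fun n =>
    floor_close (hδ0 n)
  have hab : ∀ n, a n ≤ b n + ((n : ℝ≥0∞) + 1)⁻¹ := by
    intro n
    rw [ha, hb]
    refine le_trans (lintegral_mono fun w => ?_) (hint n _)
    exact (hδ n).near' (hclose n).1 (hclose n).2 _ _
  have hba : ∀ n, b n ≤ a n + ((n : ℝ≥0∞) + 1)⁻¹ := by
    intro n
    rw [ha, hb]
    refine le_trans (lintegral_mono fun w => ?_) (hint n _)
    exact (hδ n).near' (hclose n).2 (hclose n).1 _ _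
  have hlim : ulim U (fun n => ((n : ℝ≥0∞) + 1)⁻¹) = 0 := by
    apply ulim_eq
    refine Tendsto.mono_left ?_ hU
    have h1 : Tendsto (fun n : ℕ => ((n : ℝ≥0∞) + 1)) atTop (𝓝 ∞) := by
      have := ENNReal.tendsto_nat_nhds_top
      exact tendsto_nhds_top_mono' this fun n => le_self_add
    have h2 := tendsto_inv_iff.mpr h1
    rwa [ENNReal.inv_top] at h2
  show ulim U a = ulim U b
  apply le_antisymm
  · calc ulim U a ≤ ulim U (fun n => b n + ((n : ℝ≥0∞) + 1)⁻¹) :=
          ulim_mono (Eventually.of_forall hab)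
      _ = ulim U b := by rw [ulim_add, hlim, add_zero]
  · calc ulim U b ≤ ulim U (fun n => a n + ((n : ℝ≥0∞) + 1)⁻¹) :=
          ulim_mono (Eventually.of_forall hba)
      _ = ulim U a := by rw [ulim_add, hlim, add_zero]

theorem past_le (E : Type) [MeasurableSpace E] (s : ℝ≥0) : past E s ≤ MeasurableSpace.pi := by
  refine iSup₂_le fun u _ => ?_
  exact (measurable_pi_apply u).comap_le

theorem umarkov_cyl (δ : ℕ → ℝ≥0) (hδ0 : ∀ n, 0 < δ n)
    (hδ : ∀ n, Fine (T n) (δ n) (((n : ℝ≥0∞) + 1)⁻¹)) (x : Ult U S) (s t : ℝ≥0)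
    {H : Set (ℝ≥0 → Ult U S)} (hH : H ∈ cyl U S (Iic s)) {A : Set (Ult U S)}
    (hA : MeasurableSet A) :
    ulaw hU T δ x (H ∩ {ω | ω (s + t) ∈ A}) =
      ∫⁻ ω in H, uker hU T t (ω s) A ∂(ulaw hU T δ x) := by
  have key : ((ulaw hU T δ x).restrict H).map (fun ω => ω (s + t)) =
      (((ulaw hU T δ x).restrict H).map (fun ω => ω s)).bind (uker hU T t) := by
    have hev : ∀ u : ℝ≥0, Measurable (fun ω : ℝ≥0 → Ult U S => ω u) :=
      fun u => measurable_pi_apply u
    have : IsFiniteMeasure (((ulaw hU T δ x).restrict H).map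
        (fun ω : ℝ≥0 → Ult U S => ω (s + t))) := by
      infer_instance
    apply ext_intl
    intro B hB
    have hBm : MeasurableSet (intl U B) := measurableSet_intl hB
    rw [Measure.map_apply (hev _) hBm,
      Measure.restrict_apply ((hev (s + t)) hBm), inter_comm,
      Measure.bind_apply hBm (uker hU T t).aemeasurable,
      lintegral_map (Kernel.measurable_coe _ hBm) (hev s)]
    exact umarkov_intl hU T δ hδ0 hδ x s t hH B
  have h1 : ((ulaw hU T δ x).restrict H).map (fun ω => ω (s + t)) A =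
      (((ulaw hU T δ x).restrict H).map (fun ω => ω s)).bind (uker hU T t) A := by rw [key]
  have hev : ∀ u : ℝ≥0, Measurable (fun ω : ℝ≥0 → Ult U S => ω u) :=
    fun u => measurable_pi_apply u
  rw [Measure.map_apply (hev _) hA,
      Measure.restrict_apply ((hev (s + t)) hA), inter_comm,
      Measure.bind_apply hA (uker hU T t).aemeasurable,
      lintegral_map (Kernel.measurable_coe _ hA) (hev s)] at h1
  exact h1

theorem umarkov (δ : ℕ → ℝ≥0) (hδ0 : ∀ n, 0 < δ n)
    (hδ : ∀ n, Fine (T n) (δ n) (((n : ℝ≥0∞) + 1)⁻¹)) (x : Ult U S) (s t : ℝ≥0)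
    (H : Set (ℝ≥0 → Ult U S)) (A : Set (Ult U S)) (hH : MeasurableSet[past (Ult U S) s] H)
    (hA : MeasurableSet A) :
    ulaw hU T δ x (H ∩ {ω | ω (s + t) ∈ A}) =
      ∫⁻ ω in H, uker hU T t (ω s) A ∂(ulaw hU T δ x) := by
  have hAm : MeasurableSet {ω : ℝ≥0 → Ult U S | ω (s + t) ∈ A} :=
    (measurable_pi_apply (s + t)) hA
  have hgen : past (Ult U S) s = MeasurableSpace.generateFrom (cyl U S (Iic s)) :=
    generateFrom_cyl (Iic s)
  have hle := past_le (Ult U S) s
  let P := ulaw hU T δ x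
  let μ₁ : Measure (ℝ≥0 → Ult U S) := P.restrict {ω | ω (s + t) ∈ A}
  let μ₂ : Measure (ℝ≥0 → Ult U S) := P.withDensity fun ω => uker hU T t (ω s) A
  have hμ₂ : ∀ G : Set (ℝ≥0 → Ult U S), MeasurableSet G →
      μ₂ G = ∫⁻ ω in G, uker hU T t (ω s) A ∂P := fun G hG => withDensity_apply _ hG
  have hμ₁ : ∀ G : Set (ℝ≥0 → Ult U S), MeasurableSet G →
      μ₁ G = P (G ∩ {ω | ω (s + t) ∈ A}) := fun G hG => Measure.restrict_apply hG
  have h1 : μ₁.trim hle = μ₂.trim hle := by
    have : IsFiniteMeasure (μ₁.trim hle) := isFiniteMeasure_trim hle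
    refine ext_of_generate_finite (m0 := past (Ult U S) s) (cyl U S (Iic s)) hgen
      (isPiSystem_cyl _) ?_ ?_
    · intro G hG
      have hG1 : MeasurableSet[past (Ult U S) s] G := by
        rw [hgen]; exact MeasurableSpace.measurableSet_generateFrom hG
      rw [trim_measurableSet_eq hle hG1, trim_measurableSet_eq hle hG1, hμ₁ _ (hle _ hG1),
        hμ₂ _ (hle _ hG1)]
      exact umarkov_cyl hU T δ hδ0 hδ x s t hG hA
    · have hG1 : MeasurableSet[past (Ult U S) s] univ := MeasurableSet.univ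
      rw [trim_measurableSet_eq hle hG1, trim_measurableSet_eq hle hG1, hμ₁ _ (hle _ hG1),
        hμ₂ _ (hle _ hG1)]
      exact umarkov_cyl hU T δ hδ0 hδ x s t (univ_mem_cyl _) hA
  have h2 : μ₁.trim hle H = μ₂.trim hle H := by rw [h1]
  rw [trim_measurableSet_eq hle hH, trim_measurableSet_eq hle hH, hμ₁ _ (hle _ hH),
        hμ₂ _ (hle _ hH)] at h2
  exact h2

/-- The ultraproduct process. -/
def uproc (δ : ℕ → ℝ≥0) (hδ0 : ∀ n, 0 < δ n)
    (hδ : ∀ n, Fine (T n) (δ n) (((n : ℝ≥0∞) + 1)⁻¹)) : MarkovProcess (Ult U S) where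
  toTransitionFunction := uT hU T
  law := ulaw hU T δ
  prob := inferInstance
  start := ulaw_start hU T δ
  simpleMarkov x s t H A hH hA := umarkov hU T δ hδ0 hδ x s t H A hH hA

/-! ### distance functions and profiles -/

theorem ustationary (π : ∀ n, Measure (S n)) [∀ n, IsProbabilityMeasure (π n)]
    (hπ : ∀ n t, (π n).bind ((T n).ker t) = π n) (t : ℝ≥0) :
    (loeb hU π).bind ((uT hU T).ker t) = loeb hU π := by
  show (loeb hU π).bind (uker hU T t) = loeb hU π
  rw [loeb_bind hU T]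
  congr 1
  ext1 n
  exact hπ n t

theorem tendsto_distFun (π : ∀ n, Measure (S n)) [∀ n, IsProbabilityMeasure (π n)]
    (x : Ult U S) (t : ℝ≥0) :
    Tendsto (fun n => distFun (T n) (π n) (x n) t) (U : Filter ℕ)
      (𝓝 (distFun (uT hU T) (loeb hU π) x t)) := by
  have inst : ∀ (n : ℕ), IsProbabilityMeasure ((T n).ker t (x n)) :=
      fun n => ((T n).markov t).isProbabilityMeasure (x n)
  exact tendsto_tv hU (fun n => (T n).ker t (x n)) π

theorem dec_u (π : ∀ n, Measure (S n)) [∀ n, IsProbabilityMeasure (π n)]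
    (hπ : ∀ n t, (π n).bind ((T n).ker t) = π n) (x : Ult U S) :
    Dec (distFun (uT hU T) (loeb hU π) x) :=
  dec_distFun (uT hU T) (loeb hU π) (ustationary hU T π hπ) x

theorem distFun_eq_lift (π : ∀ n, Measure (S n)) [∀ n, IsProbabilityMeasure (π n)]
    (x : Ult U S) (t : ℝ≥0) :
    distFun (uT hU T) (loeb hU π) x t =
      (lift U (fun n y => ENNReal.ofReal (distFun (T n) (π n) y t)) x).toReal := by
  have h1 : lift U (fun n y => ENNReal.ofReal (distFun (T n) (π n) y t)) x =
      ENNReal.ofReal (distFun (uT hU T) (loeb hU π) x t) :=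
    ulim_eq (ENNReal.tendsto_ofReal (tendsto_distFun hU T π x t))
  rw [h1, ENNReal.toReal_ofReal]
  have : IsMarkovKernel ((uT hU T).ker t) := (uT hU T).markov t
  exact tv_nonneg _ _

theorem measurable_distFun (π : ∀ n, Measure (S n)) [∀ n, IsProbabilityMeasure (π n)] (t : ℝ≥0) :
    Measurable fun x : Ult U S => distFun (uT hU T) (loeb hU π) x t := by
  simp_rw [distFun_eq_lift hU T π]
  exact (measurable_lift _ fun n => measurable_of_finite _).ennreal_toReal

theorem measurable_profile (π : ∀ n, Measure (S n)) [∀ n, IsProbabilityMeasure (π n)]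
    (hπ : ∀ n t, (π n).bind ((T n).ker t) = π n) :
    Measurable (profile (uT hU T) (loeb hU π)) :=
  measurable_reg _ (dec_u hU T π hπ) (measurable_distFun hU T π)

theorem tendsto_profile (π : ∀ n, Measure (S n)) [∀ n, IsProbabilityMeasure (π n)]
    (hπ : ∀ n t, (π n).bind ((T n).ker t) = π n) (x : Ult U S) :
    Tendsto (fun n => profile (T n) (π n) (x n)) (U : Filter ℕ)
      (𝓝 (profile (uT hU T) (loeb hU π) x)) :=
  tendsto_reg (fun n => dec_distFun (T n) (π n) (hπ n) (x n)) (dec_u hU T π hπ x)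
    (tendsto_distFun hU T π x)

theorem law_eq (π : ∀ n, Measure (S n)) [∀ n, IsProbabilityMeasure (π n)]
    (hπ : ∀ n t, (π n).bind ((T n).ker t) = π n) (Λ : Measure Profile) [IsProbabilityMeasure Λ]
    (h : ∀ Φ : Profile →ᵇ ℝ≥0, Tendsto (fun n => ∫⁻ y, Φ (profile (T n) (π n) y) ∂(π n))
      (U : Filter ℕ) (𝓝 (∫⁻ f, Φ f ∂Λ))) :
    (loeb hU π).map (profile (uT hU T) (loeb hU π)) = Λ := by
  have hm := measurable_profile hU T π hπ
  have : IsProbabilityMeasure ((loeb hU π).map (profile (uT hU T) (loeb hU π))) :=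
    Measure.isProbabilityMeasure_map hm.aemeasurable
  apply ext_of_forall_lintegral_eq_of_IsFiniteMeasure
  intro Φ
  rw [lintegral_map (by fun_prop) hm]
  have e : ∀ x : Ult U S, (Φ (profile (uT hU T) (loeb hU π) x) : ℝ≥0∞) =
      lift U (fun n y => (Φ (profile (T n) (π n) y) : ℝ≥0∞)) x := by
    intro x
    symm
    apply ulim_eq
    refine ENNReal.tendsto_coe.mpr ?_
    exact (Φ.continuous.tendsto _).comp (tendsto_profile hU T π hπ x)
  simp_rw [e]
  rw [lintegral_lift hU π _ (fun n => measurable_of_finite _) (nndist Φ 0)]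
  · exact ulim_eq (h Φ)
  · intro n y
    rw [ENNReal.coe_le_coe]
    exact BoundedContinuousFunction.NNReal.upper_bound Φ _


end ultraSection

/-- Every subsequential weak limit of the random distance functions of a sequence of finite-state
continuous-time Markov chains is the random distance function of a continuous-time Markov process
with a stationary distribution. -/
theorem result (S : ℕ → Type) [∀ n, Finite (S n)] [∀ n, MeasurableSpace (S n)]
    [∀ n, DiscreteMeasurableSpace (S n)] (C : ∀ n, TransitionFunction (S n))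
    (hC : ∀ n x, Tendsto (fun t => (C n).ker t x {x}) (𝓝[>] 0) (𝓝 1))
    (π : ∀ n, Measure (S n)) [∀ n, IsProbabilityMeasure (π n)]
    (hπ : ∀ n t, (π n).bind ((C n).ker t) = π n)
    (Ω : Type) [MeasurableSpace Ω] (P : Measure Ω) [IsProbabilityMeasure P] (Flim : Ω → Profile)
    (φ : ℕ → ℕ) (_hφ : StrictMono φ)
    (h : TendstoInDistribution (fun k => profile (C (φ k)) (π (φ k))) atTop Flim
      (fun k => π (φ k)) P) :
    ∃ (E : Type) (_ : MeasurableSpace E) (X : MarkovProcess E) (ν : Measure E),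
      IsProbabilityMeasure ν ∧ (∀ t, ν.bind (X.ker t) = ν) ∧
      Measurable (profile X.toTransitionFunction ν) ∧
      IdentDistrib Flim (profile X.toTransitionFunction ν) P ν := by
  classical
  have fin : ∀ k, Fintype (S (φ k)) := fun k => Fintype.ofFinite _
  have hne : ∀ k, Nonempty (S (φ k)) := fun k => nonempty_of_isProbabilityMeasure (π (φ k))
  let U : Ultrafilter ℕ := Ultrafilter.of atTop
  have hU : (U : Filter ℕ) ≤ atTop := Ultrafilter.of_le _
  have hδ : ∀ k, ∃ δ : ℝ≥0, 0 < δ ∧ Fine (C (φ k)) δ (((k : ℝ≥0∞) + 1)⁻¹) := by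
    intro k
    apply exists_fine (C (φ k)) (hC (φ k))
    rw [ENNReal.inv_pos]
    exact ENNReal.add_ne_top.mpr ⟨ENNReal.natCast_ne_top k, ENNReal.one_ne_top⟩
  choose δ hδ0 hδ1 using hδ
  have hm := measurable_profile hU (fun k => C (φ k)) (fun k => π (φ k)) (fun k => hπ (φ k))
  refine ⟨Ult U (fun k => S (φ k)), inferInstance, uproc hU (fun k => C (φ k)) δ hδ0 hδ1,
    loeb hU (fun k => π (φ k)), inferInstance,
    ustationary hU (fun k => C (φ k)) (fun k => π (φ k)) (fun k => hπ (φ k)), hm,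
    ⟨h.aemeasurable_limit, hm.aemeasurable, ?_⟩⟩
  symm
  have hΛ : IsProbabilityMeasure (P.map Flim) :=
    Measure.isProbabilityMeasure_map h.aemeasurable_limit
  apply law_eq hU (fun k => C (φ k)) (fun k => π (φ k)) (fun k => hπ (φ k))
  intro Φ
  have h1 := ProbabilityMeasure.tendsto_iff_forall_lintegral_tendsto.mp h.tendsto Φ
  refine Tendsto.mono_left ?_ hU
  refine h1.congr fun k => ?_
  show ∫⁻ f, Φ f ∂((π (φ k)).map (profile (C (φ k)) (π (φ k)))) = _
  rw [lintegral_map (by fun_prop) (measurable_of_finite _)]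

end

end Pool.Agent.Results.MP_5090e2_pr.ProfileLimits
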